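import Mathlib
import Pool.Agent.N15.RC.Fin

/-!
Saddle curvature of surfaces in Euclidean four-space: area formula for the Gauss map at saddles
(after `Pool.Agent.N503.MLDef`, `Pool.Agent.N503.MLArea`).
-/

set_option autoImplicit false

namespace Pool.Agent.U95.SD

open scoped ContDiff RealInnerProductSpace ENNReal Topology
open MeasureTheory Set Metric Filter
open Pool.Agent.Y503.RB Pool.Agent.N503.ML Pool.Agent.N15.RC

/-- The normal vector `n` at `φ z` points upwards and the second fundamental form with respect to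
`n` is indefinite and nondegenerate. -/
def Sad (φ : ℂ → E4) (n : E4) (z : ℂ) : Prop := 0 < n 3 ∧ kdet φ n z < 0

open Classical in
/-- Density of the saddle curvature. -/
noncomputable def densS (φ : ℂ → E4) (n : E4) (z : ℂ) : ℝ :=
  if Sad φ n z then |kdet φ n z| / √(fffDet φ z) else 0

/-- Integral of the density over the circle of unit normal vectors at `φ z`. (All `L` in the
supremum give the same value.) -/
noncomputable def curvS (φ : ℂ → E4) (z : ℂ) : ℝ≥0∞ :=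
  ⨆ (L : ℂ →ₗᵢ[ℝ] E4) (_ : ∀ w v : ℂ, ⟪L w, d1 φ v z⟫ = 0),
    ∫⁻ θ in Ico 0 (2 * Real.pi),
      ENNReal.ofReal (densS φ (L ⟨Real.cos θ, Real.sin θ⟩) z)

/-- Saddle curvature of a disc. -/
noncomputable def sadE (φ : ℂ → E4) : ℝ≥0∞ := ∫⁻ z in ball (0 : ℂ) 1, curvS φ z

variable {φ N₁ N₂ : ℂ → E4} {U : Set ℂ}

/-- The integral over the circle of unit normal vectors does not depend on the frame. -/
theorem indS {φ N₁ N₂ : ℂ → E4} {U : Set ℂ} (hP : IPatch φ U) (hF : Frame φ N₁ N₂ U)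
    {z : ℂ} (hz : z ∈ U) :
    ∫⁻ θ in Ico 0 (2 * Real.pi), ENNReal.ofReal (densS φ (nor N₁ N₂ θ z) z) = curvS φ z := by
  have u1 := hF.unit₁ z hz
  have u2 := hF.unit₂ z hz
  have o := hF.orth z hz
  have o1 := hF.norm₁ z hz
  have o2 := hF.norm₂ z hz
  have i11 : ⟪N₁ z, N₁ z⟫ = (1 : ℝ) := by rw [real_inner_self_eq_norm_sq, u1]; norm_num
  have i22 : ⟪N₂ z, N₂ z⟫ = (1 : ℝ) := by rw [real_inner_self_eq_norm_sq, u2]; norm_num
  have o' : ⟪N₂ z, N₁ z⟫ = (0 : ℝ) := by rw [real_inner_comm]; exact o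
  apply le_antisymm
  · let L0 : ℂ →ₗᵢ[ℝ] E4 :=
      { toFun := fun w => w.re • N₁ z + w.im • N₂ z
        map_add' := by
          intro a b
          simp only [Complex.add_re, Complex.add_im, add_smul]
          abel
        map_smul' := by
          intro r a
          simp only [Complex.real_smul, Complex.mul_re, Complex.mul_im, Complex.ofReal_re,
            Complex.ofReal_im, zero_mul, sub_zero, add_zero, RingHom.id_apply, smul_add,
            smul_smul]
        norm_map' := by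
          intro w
          have h1 : ‖w.re • N₁ z + w.im • N₂ z‖ ^ 2 = ‖w‖ ^ 2 := by
            rw [← real_inner_self_eq_norm_sq, ← Complex.normSq_eq_norm_sq, Complex.normSq_apply]
            simp only [inner_add_left, inner_add_right, real_inner_smul_left,
              real_inner_smul_right, i11, i22, o, o']
            ring
          exact (sq_eq_sq₀ (norm_nonneg _) (norm_nonneg _)).1 h1 }
    have hL0 : ∀ w v : ℂ, ⟪L0 w, d1 φ v z⟫ = (0 : ℝ) := by
      intro w v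
      show ⟪w.re • N₁ z + w.im • N₂ z, d1 φ v z⟫ = (0 : ℝ)
      rw [inner_add_left, real_inner_smul_left, real_inner_smul_left, o1, o2]
      ring
    exact le_iSup₂_of_le L0 hL0 le_rfl
  · refine iSup₂_le fun L hL => le_of_eq ?_
    obtain ⟨a, -, ha⟩ := frame_unit hP hF hz (n := L 1)
      (by rw [L.norm_map]; exact norm_one) (hL 1)
    obtain ⟨b, -, hb⟩ := frame_unit hP hF hz (n := L Complex.I)
      (by rw [L.norm_map]; exact Complex.norm_I) (hL Complex.I)
    have h0 : ⟪L 1, L Complex.I⟫ = (0 : ℝ) := by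
      rw [L.inner_map_map]
      simp [Complex.inner]
    have h1 : Real.cos a * Real.cos b + Real.sin a * Real.sin b = 0 := by
      rw [ha, hb] at h0
      simp only [nor, inner_add_left, inner_add_right, real_inner_smul_left,
        real_inner_smul_right, i11, i22, o, o'] at h0
      linarith
    have hLt : ∀ t : ℝ, L ⟨Real.cos t, Real.sin t⟩ =
        (Real.cos t * Real.cos a + Real.sin t * Real.cos b) • N₁ z +
          (Real.cos t * Real.sin a + Real.sin t * Real.sin b) • N₂ z := by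
      intro t
      have h2 : ∀ x y : ℝ, (⟨x, y⟩ : ℂ) = x • (1 : ℂ) + y • Complex.I := by
        intro x y
        apply Complex.ext <;> simp
      rw [h2, L.map_add, L.map_smul, L.map_smul, ha, hb]
      simp only [nor, smul_add, smul_smul, add_smul]
      abel
    obtain ⟨f, hf⟩ : ∃ f : ℝ → ℝ≥0∞, f = fun t => ENNReal.ofReal (densS φ (nor N₁ N₂ t z) z) :=
      ⟨_, rfl⟩
    have hper : Function.Periodic f (2 * Real.pi) := by
      intro t
      rw [hf]
      simp only [nor, Real.cos_add_two_pi, Real.sin_add_two_pi]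
    have hca := Real.sin_sq_add_cos_sq a
    have hcb := Real.sin_sq_add_cos_sq b
    have hs : (Real.cos b = -Real.sin a ∧ Real.sin b = Real.cos a) ∨
        (Real.cos b = Real.sin a ∧ Real.sin b = -Real.cos a) := by
      obtain ⟨s, hs⟩ : ∃ s, s = Real.cos a * Real.sin b - Real.sin a * Real.cos b := ⟨_, rfl⟩
      have e1 : Real.cos b = -(s * Real.sin a) := by
        rw [hs]
        linear_combination (-Real.cos b) * hca + Real.cos a * h1
      have e2 : Real.sin b = s * Real.cos a := by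
        rw [hs]
        linear_combination (-Real.sin b) * hca + Real.sin a * h1
      have e3 : s ^ 2 = 1 := by
        have : s ^ 2 * (Real.sin a ^ 2 + Real.cos a ^ 2) = 1 := by
          rw [← hcb, e1, e2]
          ring
        rwa [hca, mul_one] at this
      rcases mul_self_eq_one_iff.1 ((sq s).symm.trans e3) with h | h
      · left
        rw [h] at e1 e2
        exact ⟨by linarith, by linarith⟩
      · right
        rw [h] at e1 e2
        exact ⟨by linarith, by linarith⟩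
    rcases hs with ⟨h2, h3⟩ | ⟨h2, h3⟩
    · have h4 : (fun t : ℝ => ENNReal.ofReal (densS φ (L ⟨Real.cos t, Real.sin t⟩) z)) =
          fun t => f (t + a) := by
        funext t
        rw [hLt, hf, h2, h3]
        simp only [nor, Real.cos_add, Real.sin_add]
        congr 4
        · ring_nf
        · ring_nf
      rw [h4, Pool.Agent.Y429.RB.lper1 hper, hf]
    · have h4 : (fun t : ℝ => ENNReal.ofReal (densS φ (L ⟨Real.cos t, Real.sin t⟩) z)) =
          fun t => f (-t + a) := by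
        funext t
        rw [hLt, hf, h2, h3]
        simp only [nor, Real.cos_add, Real.sin_add, Real.cos_neg, Real.sin_neg]
        congr 4
        · ring_nf
        · ring_nf
      rw [h4, Pool.Agent.Y429.RB.lper2 hper, hf]

theorem isOpen_sad (h : IPatch φ U) (hF : Frame φ N₁ N₂ U) :
    IsOpen {q : ℝ × ℂ | q.2 ∈ U ∧ Sad φ (nor N₁ N₂ q.1 q.2) q.2} := by
  have hU : IsOpen ((univ : Set ℝ) ×ˢ U) := isOpen_univ.prod h.isOpen
  have h3 : ContinuousOn (fun q : ℝ × ℂ => (nor N₁ N₂ q.1 q.2) 3) (univ ×ˢ U) :=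
    (EuclideanSpace.proj (3 : Fin 4) : E4 →L[ℝ] ℝ).continuous.comp_continuousOn
      (Pool.Agent.Y349.RB.c_nor hF)
  have e : {q : ℝ × ℂ | q.2 ∈ U ∧ Sad φ (nor N₁ N₂ q.1 q.2) q.2} =
      ((univ : Set ℝ) ×ˢ U ∩ (fun q : ℝ × ℂ => (nor N₁ N₂ q.1 q.2) 3) ⁻¹' Ioi 0) ∩
      ((univ : Set ℝ) ×ˢ U ∩ (fun q : ℝ × ℂ => kdet φ (nor N₁ N₂ q.1 q.2) q.2) ⁻¹' Iio 0) := by
    ext q
    simp only [mem_ofPred_eq, Sad, mem_inter_iff, mem_prod, mem_univ, true_and, mem_preimage,
      mem_Ioi, mem_Iio]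
    tauto
  rw [e]
  exact (h3.isOpen_inter_preimage hU isOpen_Ioi).inter
    ((c_kdet h hF).isOpen_inter_preimage hU isOpen_Iio)

/-- The region of saddles. -/
def regS (φ N₁ N₂ : ℂ → E4) (U : Set ℂ) : Set E4 :=
  {x | zc x ∈ U ∧ Sad φ (nor N₁ N₂ (x 2) (zc x)) (zc x) ∧ x 3 ∈ Ioo 0 1}

theorem isOpen_regS (h : IPatch φ U) (hF : Frame φ N₁ N₂ U) : IsOpen (regS φ N₁ N₂ U) := by
  have h1 := (isOpen_sad h hF).preimage continuous_coord
  have h2 : IsOpen {x : E4 | x 3 ∈ Ioo (0 : ℝ) 1} :=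
    isOpen_Ioo.preimage (by fun_prop : Continuous fun x : E4 => x 3)
  have e : regS φ N₁ N₂ U = ((fun x : E4 => (x 2, zc x)) ⁻¹'
      {q : ℝ × ℂ | q.2 ∈ U ∧ Sad φ (nor N₁ N₂ q.1 q.2) q.2}) ∩
      {x : E4 | x 3 ∈ Ioo (0 : ℝ) 1} := by
    ext x
    simp only [regS, mem_ofPred_eq, mem_inter_iff, mem_preimage]
    tauto
  rw [e]
  exact h1.inter h2

theorem aemeasurable_densS (h : IPatch φ U) (hF : Frame φ N₁ N₂ U) :
    AEMeasurable (fun q : ℝ × ℂ => ENNReal.ofReal (densS φ (nor N₁ N₂ q.1 q.2) q.2))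
      (volume.restrict (Ico 0 (2 * Real.pi) ×ˢ U)) := by
  have hU : IsOpen ((univ : Set ℝ) ×ˢ U) := isOpen_univ.prod h.isOpen
  have hm : AEMeasurable (fun q : ℝ × ℂ => densS φ (nor N₁ N₂ q.1 q.2) q.2)
      (volume.restrict ((univ : Set ℝ) ×ˢ U)) := by
    have h4 : AEMeasurable (fun q : ℝ × ℂ => |kdet φ (nor N₁ N₂ q.1 q.2) q.2| / √(fffDet φ q.2))
        (volume.restrict ((univ : Set ℝ) ×ˢ U)) :=
      (ContinuousOn.div (c_kdet h hF).abs (Pool.Agent.Y349.RB.c_snd (c_fffDet h)).sqrt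
        fun _ hq => (Real.sqrt_pos.2 (Pool.Agent.Y503.RB.fffDet_pos
          (h.imm _ hq.2))).ne').aemeasurable hU.measurableSet
    have h5 := h4.indicator (isOpen_sad h hF).measurableSet
    refine h5.congr ?_
    filter_upwards [ae_restrict_mem hU.measurableSet] with q hq
    have hq2 : q.2 ∈ U := hq.2
    by_cases hi : Sad φ (nor N₁ N₂ q.1 q.2) q.2
    · rw [indicator_of_mem (by exact ⟨hq2, hi⟩)]
      simp [densS, hi]
    · rw [indicator_of_notMem (by exact fun h => hi h.2)]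
      simp [densS, hi]
  exact (hm.mono_measure (Measure.restrict_mono (prod_mono (subset_univ _) subset_rfl)
    le_rfl)).ennreal_ofReal

/-- `z` is a critical point of the function `⟨y, φ⟩` with indefinite nondegenerate second derivative, and
`y` points upwards. -/
def CritSad (φ : ℂ → E4) (y : E4) (z : ℂ) : Prop :=
  (∀ v : ℂ, ⟪y, d1 φ v z⟫ = 0) ∧ Sad φ y z

theorem sad_smul {φ : ℂ → E4} {r : ℝ} (hr : 0 < r) {n : E4} {z : ℂ} :
    Sad φ (r • n) z ↔ Sad φ n z := by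
  unfold Sad
  rw [kdet_smul]
  have h1 : (r • n) 3 = r * n 3 := rfl
  have h2 : ∀ s : ℝ, r ^ 2 * s < 0 ↔ s < 0 := fun s => ⟨fun h => by
    by_contra hc
    push Not at hc
    have := mul_nonneg (sq_nonneg r) hc
    linarith, fun h => mul_neg_of_pos_of_neg (by positivity) h⟩
  rw [h1, mul_pos_iff_of_pos_left hr, h2]

theorem critSad_smul {φ : ℂ → E4} {r : ℝ} (hr : 0 < r) {n : E4} {z : ℂ} :
    CritSad φ (r • n) z ↔ CritSad φ n z := by
  unfold CritSad
  rw [sad_smul hr]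
  refine and_congr_left fun _ => forall_congr' fun v => ?_
  rw [real_inner_smul_left, mul_eq_zero, or_iff_right hr.ne']

/-- The area formula: the sheets of the Gauss map at saddles. -/
def SheetsS (φ : ℂ → E4) (A : Set ℂ) : Prop :=
  ∃ (ι : Type) (_ : Countable ι) (E : ι → Set E4) (ζ : ι → E4 → ℂ),
    (∀ i, MeasurableSet (E i)) ∧
    (∀ i, ∀ y ∈ E i, y ∈ ball (0 : E4) 1 ∧ ζ i y ∈ A ∧ CritSad φ y (ζ i y)) ∧
    (∀ i j, i ≠ j → ∀ y, y ∈ E i → y ∈ E j → ζ i y ≠ ζ j y) ∧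
    (∀ y ∈ ball (0 : E4) 1, ∀ z ∈ A, CritSad φ y z → ∃ i, y ∈ E i ∧ ζ i y = z) ∧
    ∑' i, volume (E i) = ENNReal.ofReal (1 / 4) * ∫⁻ z in A, curvS φ z

theorem cE_facts (hF : Frame φ N₁ N₂ U) {x : E4} (hx : x ∈ regS φ N₁ N₂ U) :
    ‖cE N₁ N₂ x‖ = x 3 ∧ CritSad φ (cE N₁ N₂ x) (zc x) := by
  obtain ⟨h1, h2, h3⟩ := hx
  have hn := Pool.Agent.Y692.RB.nor_norm hF h1 (x 2)
  constructor
  · unfold cE
    rw [norm_smul, hn, mul_one, Real.norm_eq_abs, abs_of_pos h3.1]
  · unfold cE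
    rw [critSad_smul h3.1]
    exact ⟨fun v => Pool.Agent.Y692.RB.nor_tan hF h1 (x 2) v, h2⟩

/-- injectivity of `zc` on the fibres -/
theorem fibre_inj (hF : Frame φ N₁ N₂ U) {x x' : E4} (hx : x ∈ regS φ N₁ N₂ U)
    (hx' : x' ∈ regS φ N₁ N₂ U) (h2 : x 2 ∈ Ico 0 (2 * Real.pi))
    (h2' : x' 2 ∈ Ico 0 (2 * Real.pi)) (h : cE N₁ N₂ x = cE N₁ N₂ x') (hz : zc x = zc x') :
    x = x' := by
  have h3 : x 3 = x' 3 := by
    rw [← (cE_facts hF hx).1, ← (cE_facts hF hx').1, h]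
  have hn : nor N₁ N₂ (x 2) (zc x) = nor N₁ N₂ (x' 2) (zc x) := by
    have h4 : x 3 • nor N₁ N₂ (x 2) (zc x) = x 3 • nor N₁ N₂ (x' 2) (zc x) := by
      have : cE N₁ N₂ x' = x 3 • nor N₁ N₂ (x' 2) (zc x) := by
        unfold cE; rw [h3, hz]
      rw [← this, ← h]
      rfl
    exact smul_right_injective E4 hx.2.2.1.ne' h4
  have hin := Pool.Agent.Y692.RB.nor_inner hF hx.1 (x 2) (x' 2)
  rw [← hn, Pool.Agent.Y692.RB.inner_self_one (Pool.Agent.Y692.RB.nor_norm hF hx.1 (x 2)),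
    ← Real.cos_sub] at hin
  have hθ : x 2 = x' 2 := by
    have h5 := hin.symm
    rw [Real.cos_eq_one_iff] at h5
    obtain ⟨k, hk⟩ := h5
    have hpi := Real.pi_pos
    have h6 : (-1 : ℝ) < k := by
      by_contra hc
      push Not at hc
      nlinarith [h2.1, h2.2, h2'.1, h2'.2]
    have h7 : (k : ℝ) < 1 := by
      by_contra hc
      push Not at hc
      nlinarith [h2.1, h2.2, h2'.1, h2'.2]
    have h8 : k = 0 := by
      have h9 : (-1 : ℤ) < k := by exact_mod_cast h6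
      have h10 : k < 1 := by exact_mod_cast h7
      omega
    rw [h8] at hk
    simp at hk
    linarith
  have hre := congrArg Complex.re hz
  have him := congrArg Complex.im hz
  simp only [zc] at hre him
  ext i
  fin_cases i
  · exact hre
  · exact him
  · exact hθ
  · exact h3

theorem lint_eq (hP : IPatch φ U) (hF : Frame φ N₁ N₂ U) {A : Set ℂ} (hA : MeasurableSet A)
    (hAU : A ⊆ U) :
    MeasurableSet {x : E4 | x ∈ regS φ N₁ N₂ U ∧ zc x ∈ A ∧ x 2 ∈ Ico 0 (2 * Real.pi)} ∧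
    ∫⁻ x in {x : E4 | x ∈ regS φ N₁ N₂ U ∧ zc x ∈ A ∧ x 2 ∈ Ico 0 (2 * Real.pi)},
      ENNReal.ofReal |(fderiv ℝ (cE N₁ N₂) x).det| =
        ENNReal.ofReal (1 / 4) * ∫⁻ z in A, curvS φ z := by
  have hRo := isOpen_regS hP hF
  have hm : MeasurableSet ({x : E4 | x ∈ regS φ N₁ N₂ U ∧ zc x ∈ A ∧
      x 2 ∈ Ico 0 (2 * Real.pi)}) := by
    refine hRo.measurableSet.inter ((continuous_zc.measurable hA).inter
      (measurable_coord 2 measurableSet_Ico))
  have hS : MeasurableSet {x : E4 | zc x ∈ A ∧ x 2 ∈ Ico 0 (2 * Real.pi) ∧ x 3 ∈ Ioo (0 : ℝ) 1} := by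
    refine (continuous_zc.measurable hA).inter ((measurable_coord 2 measurableSet_Ico).inter
      (measurable_coord 3 measurableSet_Ioo))
  refine ⟨hm, ?_⟩
  have hae : AEMeasurable (fun q : ℝ × ℂ => ENNReal.ofReal (densS φ (nor N₁ N₂ q.1 q.2) q.2))
      (volume.restrict (Ico 0 (2 * Real.pi) ×ˢ A)) :=
    (aemeasurable_densS hP hF).mono_measure
      (Measure.restrict_mono (prod_mono subset_rfl hAU) le_rfl)
  have h1 := Pool.Agent.Y919.RB.FUB A
    (fun q : ℝ × ℂ => ENNReal.ofReal (densS φ (nor N₁ N₂ q.1 q.2) q.2)) hA hae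
  have h2 : ∫⁻ z in A, ∫⁻ θ in Ico 0 (2 * Real.pi),
      ENNReal.ofReal (densS φ (nor N₁ N₂ θ z) z) = ∫⁻ z in A, curvS φ z :=
    setLIntegral_congr_fun hA fun z hz => indS hP hF (hAU hz)
  rw [← h2, ← h1]
  set S : Set E4 := {x : E4 | zc x ∈ A ∧ x 2 ∈ Ico 0 (2 * Real.pi) ∧ x 3 ∈ Ioo (0 : ℝ) 1} with hSd
  set T : Set E4 := {x : E4 | x ∈ regS φ N₁ N₂ U ∧ zc x ∈ A ∧ x 2 ∈ Ico 0 (2 * Real.pi)} with hTd
  rw [← lintegral_inter_add_sdiff _ S hm]
  have hST : S ∩ T = T := by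
    refine inter_eq_right.2 fun x hx => ?_
    exact ⟨hx.2.1, hx.2.2, hx.1.2.2⟩
  have hz : ∫⁻ x in S \ T, ENNReal.ofReal (x 3 ^ 3) *
      ENNReal.ofReal (densS φ (nor N₁ N₂ (x 2) (zc x)) (zc x)) = 0 := by
    have h3 : ∫⁻ x in S \ T, ENNReal.ofReal (x 3 ^ 3) *
      ENNReal.ofReal (densS φ (nor N₁ N₂ (x 2) (zc x)) (zc x)) = ∫⁻ x in S \ T, 0 := by
      refine setLIntegral_congr_fun (hS.diff hm) fun x hx => ?_
      have h4 : ¬ Sad φ (nor N₁ N₂ (x 2) (zc x)) (zc x) := by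
        intro h5
        exact hx.2 ⟨⟨hAU hx.1.1, h5, hx.1.2.2⟩, hx.1.1, hx.1.2.1⟩
      simp [densS, h4]
    rw [h3]; simp
  rw [hz, add_zero, hST]
  refine setLIntegral_congr_fun hm ?_
  intro x hx
  have h2 := (cE_det hP hF hx.1.1).2
  have h3 : 0 < x 3 := hx.1.2.2.1
  beta_reduce
  have h4 : densS φ (nor N₁ N₂ (x 2) (zc x)) (zc x) =
      |kdet φ (nor N₁ N₂ (x 2) (zc x)) (zc x)| / √(fffDet φ (zc x)) := by
    have h5 := hx.1.2.1
    unfold densS
    rw [if_pos h5]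
  rw [h2, h4, abs_of_pos h3, ENNReal.ofReal_mul (by positivity)]

/-- One framed piece. -/
theorem sheets_piece (hP : IPatch φ U) (hF : Frame φ N₁ N₂ U) {A : Set ℂ} (hA : MeasurableSet A)
    (hAU : A ⊆ U) :
    ∃ (E : ℕ → Set E4) (ζ : ℕ → E4 → ℂ),
    (∀ i, MeasurableSet (E i)) ∧
    (∀ i, ∀ y ∈ E i, y ∈ ball (0 : E4) 1 ∧ ζ i y ∈ A ∧ CritSad φ y (ζ i y)) ∧
    (∀ i j, i ≠ j → ∀ y, y ∈ E i → y ∈ E j → ζ i y ≠ ζ j y) ∧
    (∀ y ∈ ball (0 : E4) 1, ∀ z ∈ A, CritSad φ y z → ∃ i, y ∈ E i ∧ ζ i y = z) ∧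
    ∑' i, volume (E i) = ENNReal.ofReal (1 / 4) * ∫⁻ z in A, curvS φ z := by
  classical
  have hRo := isOpen_regS hP hF
  have hsm : ContDiffOn ℝ ∞ (cE N₁ N₂) (regS φ N₁ N₂ U) := fun x hx =>
    (cE_det hP hF hx.1).1.contDiffWithinAt
  have hdet : ∀ x ∈ regS φ N₁ N₂ U, (fderiv ℝ (cE N₁ N₂) x).det ≠ 0 := by
    intro x hx h0
    have h1 := (cE_det hP hF hx.1).2
    rw [h0, abs_zero] at h1
    have h2 : 0 < |x 3| ^ 3 := by
      have := hx.2.2.1
      positivity
    have h3 : 0 < |kdet φ (nor N₁ N₂ (x 2) (zc x)) (zc x)| := abs_pos.2 hx.2.1.2.ne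
    have h4 : 0 < √(fffDet φ (zc x)) :=
      Real.sqrt_pos.2 (Pool.Agent.Y503.RB.fffDet_pos (hP.imm _ hx.1))
    have : 0 < |x 3| ^ 3 * (|kdet φ (nor N₁ N₂ (x 2) (zc x)) (zc x)| / √(fffDet φ (zc x))) := by
      positivity
    linarith
  obtain ⟨hm, hint⟩ := lint_eq hP hF hA hAU
  obtain ⟨D, hD, hdis, hU⟩ := pieces (cE N₁ N₂) _ hRo hsm hdet _ hm (fun x hx => hx.1)
  have hDsub : ∀ i, ∀ x ∈ D i, x ∈ regS φ N₁ N₂ U ∧ zc x ∈ A ∧ x 2 ∈ Ico 0 (2 * Real.pi) := by
    intro i x hx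
    have : x ∈ ⋃ i, D i := mem_iUnion.2 ⟨i, hx⟩
    rw [hU] at this
    exact this
  refine ⟨fun i => cE N₁ N₂ '' D i, fun i y => zc (Function.invFunOn (cE N₁ N₂) (D i) y),
    fun i => (hD i).2.2.1, ?_, ?_, ?_, ?_⟩
  · intro i y hy
    have h1 : Function.invFunOn (cE N₁ N₂) (D i) y ∈ D i := Function.invFunOn_mem hy
    have h2 : cE N₁ N₂ (Function.invFunOn (cE N₁ N₂) (D i) y) = y := Function.invFunOn_eq hy
    obtain ⟨h3, h4, h5⟩ := hDsub i _ h1
    obtain ⟨h6, h7⟩ := cE_facts hF h3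
    rw [h2] at h6 h7
    refine ⟨?_, h4, h7⟩
    rw [mem_ball_zero_iff, h6]
    exact h3.2.2.2
  · intro i j hij y hi hj h
    have h1 : Function.invFunOn (cE N₁ N₂) (D i) y ∈ D i := Function.invFunOn_mem hi
    have h2 : cE N₁ N₂ (Function.invFunOn (cE N₁ N₂) (D i) y) = y := Function.invFunOn_eq hi
    have h3 : Function.invFunOn (cE N₁ N₂) (D j) y ∈ D j := Function.invFunOn_mem hj
    have h4 : cE N₁ N₂ (Function.invFunOn (cE N₁ N₂) (D j) y) = y := Function.invFunOn_eq hj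
    have h5 := fibre_inj hF (hDsub i _ h1).1 (hDsub j _ h3).1 (hDsub i _ h1).2.2
      (hDsub j _ h3).2.2 (h2.trans h4.symm) h
    have h6 := hdis hij
    rw [h5] at h1
    exact Set.disjoint_left.1 h6 h1 h3
  · intro y hy z hz hc
    have hy0 : 0 < ‖y‖ := by
      rw [norm_pos_iff]
      rintro rfl
      exact lt_irrefl _ hc.2.1
    have hyr : ‖y‖ • (‖y‖⁻¹ • y) = y := by
      rw [smul_smul, mul_inv_cancel₀ hy0.ne', one_smul]
    have hc' : CritSad φ (‖y‖⁻¹ • y) z := by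
      rw [← hyr, critSad_smul hy0] at hc
      exact hc
    obtain ⟨θ, hθ, hn⟩ := frame_unit hP hF (hAU hz) (n := ‖y‖⁻¹ • y)
      (by rw [norm_smul, norm_inv, norm_norm, inv_mul_cancel₀ hy0.ne']) hc'.1
    have hcE : cE N₁ N₂ (mk4 z θ ‖y‖) = y := by
      unfold cE
      rw [mk4_zc, mk4_two, mk4_three, ← hn, hyr]
    have hmem : mk4 z θ ‖y‖ ∈ ⋃ i, D i := by
      rw [hU]
      refine ⟨⟨?_, ?_, ?_⟩, ?_, ?_⟩
      · rw [mk4_zc]; exact hAU hz
      · rw [mk4_zc, mk4_two, ← hn]; exact hc'.2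
      · rw [mk4_three]; exact ⟨hy0, mem_ball_zero_iff.1 hy⟩
      · rw [mk4_zc]; exact hz
      · rw [mk4_two]; exact hθ
    obtain ⟨i, hi⟩ := mem_iUnion.1 hmem
    have hyE : y ∈ cE N₁ N₂ '' D i := ⟨_, hi, hcE⟩
    refine ⟨i, hyE, ?_⟩
    have h1 : Function.invFunOn (cE N₁ N₂) (D i) y ∈ D i := Function.invFunOn_mem hyE
    have h2 : cE N₁ N₂ (Function.invFunOn (cE N₁ N₂) (D i) y) = y := Function.invFunOn_eq hyE
    show zc (Function.invFunOn (cE N₁ N₂) (D i) y) = z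
    rw [(hD i).2.1 h1 hi (h2.trans hcE.symm), mk4_zc]
  · rw [← hint, ← hU, lintegral_iUnion (fun i => (hD i).1) hdis]
    exact tsum_congr fun i => (hD i).2.2.2

/-- The area formula. -/
theorem sheets {φ : ℂ → E4} {U : Set ℂ} (hP : IPatch φ U) {A : Set ℂ} (hA : MeasurableSet A)
    (hAU : A ⊆ U) : SheetsS φ A := by
  classical
  have hcov := framed_cover hP
  obtain ⟨N₁, N₂, V, h, hU⟩ := hcov
  have hdm : ∀ j, MeasurableSet (disjointed V j) :=
    fun j => MeasurableSet.disjointed (fun i => (h i).1.measurableSet) j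
  have hsub : ∀ j, A ∩ disjointed V j ⊆ V j := fun j =>
    inter_subset_right.trans (disjointed_subset V j)
  have hdisj : Pairwise (Function.onFun Disjoint fun j => A ∩ disjointed V j) := fun i j hij =>
    (disjoint_disjointed V hij).mono inter_subset_right inter_subset_right
  have hUn : ⋃ j, A ∩ disjointed V j = A := by
    rw [← inter_iUnion, iUnion_disjointed]
    exact inter_eq_left.mpr (hAU.trans hU)
  have hPj : ∀ j, IPatch φ (V j) := fun j =>
    ⟨(h j).1, hP.smooth.mono (h j).2.2, fun z hz => hP.imm z ((h j).2.2 hz)⟩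
  choose E ζ h1 h2 h3 h4 h5 using fun j =>
    sheets_piece (hPj j) (h j).2.1 (hA.inter (hdm j)) (hsub j)
  refine ⟨ℕ × ℕ, inferInstance, fun p => E p.1 p.2, fun p => ζ p.1 p.2, fun p => h1 _ _, ?_, ?_,
    ?_, ?_⟩
  · intro p y hy
    obtain ⟨a, b, c⟩ := h2 p.1 p.2 y hy
    exact ⟨a, b.1, c⟩
  · intro p q hpq y hp hq he
    by_cases hj : p.1 = q.1
    · obtain ⟨p1, p2⟩ := p
      obtain ⟨q1, q2⟩ := q
      simp only at hj
      subst hj
      have : p2 ≠ q2 := fun h => hpq (by rw [h])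
      exact h3 p1 p2 q2 this y hp hq he
    · have a := (h2 p.1 p.2 y hp).2.1
      have b := (h2 q.1 q.2 y hq).2.1
      have he' : ζ p.1 p.2 y = ζ q.1 q.2 y := he
      rw [he'] at a
      exact Set.disjoint_left.1 (hdisj hj) a b
  · intro y hy z hz hc
    have : z ∈ ⋃ j, A ∩ disjointed V j := by rw [hUn]; exact hz
    obtain ⟨j, hj⟩ := mem_iUnion.1 this
    obtain ⟨i, hi, hi'⟩ := h4 j y hy z hj hc
    exact ⟨(j, i), hi, hi'⟩
  · rw [ENNReal.tsum_prod' (f := fun p : ℕ × ℕ => volume (E p.1 p.2))]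
    have : ∀ j, ∑' i, volume (E j i) =
        ENNReal.ofReal (1 / 4) * ∫⁻ z in A ∩ disjointed V j, curvS φ z := h5
    simp_rw [this]
    rw [ENNReal.tsum_mul_left, ← lintegral_iUnion (fun j => hA.inter (hdm j)) hdisj, hUn]

/-- The counting function of the sheets. -/
theorem counting {φ : ℂ → E4} {U : Set ℂ} (hP : IPatch φ U) {A : Set ℂ} (hA : MeasurableSet A)
    (hAU : A ⊆ U) :
    ∃ c : E4 → ℝ≥0∞, Measurable c ∧
      ∫⁻ y, c y = ENNReal.ofReal (1 / 4) * ∫⁻ z in A, curvS φ z ∧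
      (∀ y ∈ ball (0 : E4) 1, ∀ s : Finset ℂ, (∀ z ∈ s, z ∈ A ∧ CritSad φ y z) →
        (s.card : ℝ≥0∞) ≤ c y) ∧
      (∀ y : E4, ∀ b : ℝ≥0∞, (∀ s : Finset ℂ, (∀ z ∈ s, z ∈ A ∧ CritSad φ y z) →
        (s.card : ℝ≥0∞) ≤ b) → c y ≤ b) ∧
      (∀ y : E4, c y ≠ 0 → y ∈ ball (0 : E4) 1 ∧ 0 < y 3) := by
  classical
  obtain ⟨ι, hι, E, ζ, h1, h2, h3, h4, h5⟩ := sheets hP hA hAU
  refine ⟨fun y => ∑' i, (E i).indicator (fun _ => 1) y, ?_, ?_, ?_, ?_, ?_⟩
  · exact Measurable.tsum fun i => measurable_const.indicator (h1 i)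
  · rw [lintegral_tsum (fun i => (measurable_const.indicator (h1 i)).aemeasurable), ← h5]
    refine tsum_congr fun i => ?_
    rw [lintegral_indicator (h1 i)]
    simp
  · intro y hy s hs
    have hidx : ∀ z : ℂ, ∃ i : Option ι, z ∈ s → ∃ j, i = some j ∧ y ∈ E j ∧ ζ j y = z := by
      intro z
      by_cases hz : z ∈ s
      · obtain ⟨i, hi⟩ := h4 y hy z (hs z hz).1 (hs z hz).2
        exact ⟨some i, fun _ => ⟨i, rfl, hi⟩⟩
      · exact ⟨none, fun h => absurd h hz⟩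
    choose idx hidx using hidx
    have hinj : InjOn idx (s : Set ℂ) := by
      intro a ha b hb hab
      obtain ⟨j, hj, -, hj2⟩ := hidx a ha
      obtain ⟨k, hk, -, hk2⟩ := hidx b hb
      have : j = k := by
        rw [hab, hk] at hj
        exact (Option.some_injective _ hj).symm
      rw [← hj2, ← hk2, this]
    let t : Finset ι := (s.image idx).eraseNone
    have hcard : s.card = t.card := by
      rw [← Finset.card_image_of_injOn hinj]
      have hno : none ∉ s.image idx := by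
        intro h
        obtain ⟨z, hz, hz'⟩ := Finset.mem_image.1 h
        obtain ⟨j, hj, -⟩ := hidx z hz
        rw [hz'] at hj
        exact absurd hj (by simp)
      have : t.map Function.Embedding.some = s.image idx := by
        rw [Finset.map_some_eraseNone, Finset.erase_eq_of_notMem hno]
      rw [← this, Finset.card_map]
    calc (s.card : ℝ≥0∞) = ∑ i ∈ t, (1 : ℝ≥0∞) := by
          rw [Finset.sum_const, hcard]
          simp
      _ = ∑ i ∈ t, (E i).indicator (fun _ => (1 : ℝ≥0∞)) y := by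
          refine Finset.sum_congr rfl fun i hi => ?_
          rw [indicator_of_mem]
          have h6 : some i ∈ s.image idx := by simpa [t] using hi
          obtain ⟨z, hz, hz'⟩ := Finset.mem_image.1 h6
          obtain ⟨j, hj, hj1, -⟩ := hidx z hz
          rw [hz'] at hj
          rw [Option.some_injective _ hj]
          exact hj1
      _ ≤ ∑' i, (E i).indicator (fun _ => (1 : ℝ≥0∞)) y := ENNReal.sum_le_tsum _
  · intro y b hb
    show ∑' i, (E i).indicator (fun _ => (1 : ℝ≥0∞)) y ≤ b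
    rw [ENNReal.tsum_eq_iSup_sum]
    refine iSup_le fun t => ?_
    have h6 : ∑ i ∈ t, (E i).indicator (fun _ => (1 : ℝ≥0∞)) y =
        ((t.filter fun i => y ∈ E i).card : ℝ≥0∞) := by
      rw [Finset.card_filter, Nat.cast_sum]
      refine Finset.sum_congr rfl fun i _ => ?_
      by_cases h : y ∈ E i
      · simp [h]
      · simp [h]
    rw [h6]
    have hinj : InjOn (fun i => ζ i y) ((t.filter fun i => y ∈ E i : Finset ι) : Set ι) := by
      intro i hi j hj hij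
      by_contra hne
      exact h3 i j hne y (Finset.mem_filter.1 hi).2 (Finset.mem_filter.1 hj).2 hij
    rw [← Finset.card_image_of_injOn hinj]
    refine hb _ fun z hz => ?_
    obtain ⟨i, hi, rfl⟩ := Finset.mem_image.1 hz
    obtain ⟨-, a, b⟩ := h2 i y (Finset.mem_filter.1 hi).2
    exact ⟨a, b⟩
  · intro y hy
    have : ∃ i, y ∈ E i := by
      by_contra hc
      push Not at hc
      apply hy
      simp only
      rw [ENNReal.tsum_eq_zero]
      intro i
      rw [indicator_of_notMem (hc i)]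
    obtain ⟨i, hi⟩ := this
    obtain ⟨a, -, c⟩ := h2 i y hi
    exact ⟨a, c.2.1⟩


end Pool.Agent.U95.SD
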