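import Mathlib
import Pool.Agent.U95.SD.Area

/-!
Saddles for directions close to the vertical one; stretched discs (after `Pool.Agent.N15.RC.Cnt`).
-/

set_option autoImplicit false

namespace Pool.Agent.U95.SD

open scoped ContDiff RealInnerProductSpace ENNReal Topology
open MeasureTheory Set Metric Filter
open Pool.Agent.Y503.RB Pool.Agent.N503.ML Pool.Agent.N15.RC

/-- `z` is a critical point of the height which is neither a local minimum nor a local maximum. -/
def SaddlePt (φ : ℂ → E4) (z : ℂ) : Prop :=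
  fderiv ℝ (fun w => φ w 3) z = 0 ∧ ¬ IsLocalMin (fun w => φ w 3) z ∧
    ¬ IsLocalMax (fun w => φ w 3) z

/-- The number of saddles of the height in the open disc. -/
noncomputable def nsad (φ : ℂ → E4) : ℕ∞ := {z : ℂ | z ∈ ball (0 : ℂ) 1 ∧ SaddlePt φ z}.encard

theorem curvS_finite {φ : ℂ → E4} (h : Srf φ) :
    ∫⁻ z in ball (0 : ℂ) 1, curvS φ z ≠ ⊤ := by
  obtain ⟨W, hW, hWsub, hWs⟩ := h.smooth
  set B : ℂ → ℝ := fun z => (‖d2 φ 1 1 z‖ * ‖d2 φ Complex.I Complex.I z‖ +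
    ‖d2 φ 1 Complex.I z‖ ^ 2) / √(fffDet φ z) with hB
  have hpos : ∀ z ∈ closedBall (0 : ℂ) 1, 0 < √(fffDet φ z) := fun z hz =>
    Real.sqrt_pos.2 (Pool.Agent.Y503.RB.fffDet_pos (h.imm z hz))
  have hF : ContinuousOn (fun z => fffDet φ z) W := by
    unfold fffDet fff
    exact (((c1 hW hWs 1).inner (c1 hW hWs 1)).mul
      ((c1 hW hWs Complex.I).inner (c1 hW hWs Complex.I))).sub
        (((c1 hW hWs 1).inner (c1 hW hWs Complex.I)).pow 2)
  have hcB : ContinuousOn B (closedBall 0 1) := by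
    refine ContinuousOn.div ?_ ((hF.mono hWsub).sqrt) fun z hz => (hpos z hz).ne'
    exact ((((c2 hW hWs 1 1).norm).mul ((c2 hW hWs Complex.I Complex.I).norm)).add
      (((c2 hW hWs 1 Complex.I).norm).pow 2)).mono hWsub
  obtain ⟨M, hM⟩ := (isCompact_closedBall (0 : ℂ) 1).exists_bound_of_continuousOn hcB
  have hbd : ∀ z ∈ ball (0 : ℂ) 1, curvS φ z ≤ ENNReal.ofReal M * ENNReal.ofReal (2 * Real.pi) := by
    intro z hz
    have hzc := ball_subset_closedBall hz
    refine iSup₂_le fun L _ => ?_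
    have h1 : ∀ θ : ℝ, ENNReal.ofReal (densS φ (L ⟨Real.cos θ, Real.sin θ⟩) z) ≤
        ENNReal.ofReal M := by
      intro θ
      apply ENNReal.ofReal_le_ofReal
      have hn : ‖L ⟨Real.cos θ, Real.sin θ⟩‖ = 1 := by
        rw [L.norm_map]
        have h2 : ‖(⟨Real.cos θ, Real.sin θ⟩ : ℂ)‖ ^ 2 = 1 := by
          rw [← Complex.normSq_eq_norm_sq, Complex.normSq_apply]
          have := Real.sin_sq_add_cos_sq θ
          nlinarith
        have h3 := norm_nonneg (⟨Real.cos θ, Real.sin θ⟩ : ℂ)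
        nlinarith
      obtain ⟨n, hnn⟩ : ∃ n, n = L ⟨Real.cos θ, Real.sin θ⟩ := ⟨_, rfl⟩
      rw [← hnn] at hn ⊢
      have hMz := hM z hzc
      rw [Real.norm_eq_abs] at hMz
      have hM0 : 0 ≤ M := (abs_nonneg _).trans hMz
      unfold densS
      split_ifs with hc
      · refine le_trans ?_ ((le_abs_self _).trans hMz)
        apply div_le_div_of_nonneg_right _ (hpos z hzc).le
        have a1 := abs_sff_le φ hn 1 1 z
        have a2 := abs_sff_le φ hn Complex.I Complex.I z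
        have a3 := abs_sff_le φ hn 1 Complex.I z
        unfold kdet
        have b1 : |sff φ n 1 1 z * sff φ n Complex.I Complex.I z| ≤
            ‖d2 φ 1 1 z‖ * ‖d2 φ Complex.I Complex.I z‖ := by
          rw [abs_mul]
          exact mul_le_mul a1 a2 (abs_nonneg _) (norm_nonneg _)
        have b2 : |sff φ n 1 Complex.I z ^ 2| ≤ ‖d2 φ 1 Complex.I z‖ ^ 2 := by
          rw [abs_pow]
          exact pow_le_pow_left₀ (abs_nonneg _) a3 2
        exact (abs_sub _ _).trans (add_le_add b1 b2)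
      · exact hM0
    calc ∫⁻ θ in Ico 0 (2 * Real.pi), ENNReal.ofReal (densS φ (L ⟨Real.cos θ, Real.sin θ⟩) z)
        ≤ ∫⁻ _ in Ico 0 (2 * Real.pi), ENNReal.ofReal M := lintegral_mono fun θ => h1 θ
      _ = ENNReal.ofReal M * ENNReal.ofReal (2 * Real.pi) := by
          rw [setLIntegral_const, Real.volume_Ico, sub_zero]
  have h2 : ∫⁻ z in ball (0 : ℂ) 1, curvS φ z ≤
      (ENNReal.ofReal M * ENNReal.ofReal (2 * Real.pi)) * volume (ball (0 : ℂ) 1) := by
    calc ∫⁻ z in ball (0 : ℂ) 1, curvS φ z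
        ≤ ∫⁻ _ in ball (0 : ℂ) 1, ENNReal.ofReal M * ENNReal.ofReal (2 * Real.pi) :=
          setLIntegral_mono' measurableSet_ball hbd
      _ = _ := by rw [setLIntegral_const]
  refine ne_top_of_le_ne_top ?_ h2
  exact ENNReal.mul_ne_top (ENNReal.mul_ne_top ENNReal.ofReal_ne_top ENNReal.ofReal_ne_top)
    measure_ball_lt_top.ne

/-- Local uniqueness of critical points. -/
theorem local_unique {φ : ℂ → E4} {W : Set ℂ} (hW : IsOpen W) (hWs : ContDiffOn ℝ ∞ φ W) {z₀ : ℂ}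
    (hz₀ : z₀ ∈ W) (hk : kdet φ vert z₀ ≠ 0) :
    ∃ ε > 0, ∀ p : E4, ‖p - vert‖ < ε → ∀ z ∈ ball z₀ ε, ∀ z' ∈ ball z₀ ε,
      (∀ v : ℂ, ⟪p, d1 φ v z⟫ = 0) → (∀ v : ℂ, ⟪p, d1 φ v z'⟫ = 0) → z = z' := by
  have hzW : W ∈ 𝓝 z₀ := hW.mem_nhds hz₀
  have hsm := hWs.contDiffAt hzW
  have ka : ∀ u v : ℂ, ContinuousAt (fun q : E4 × ℂ × ℂ => sff φ q.1 u v q.2.1)
      (vert, z₀, z₀) := by
    intro u v
    have : ContinuousAt (fun z => d2 φ u v z) z₀ := (c2 hW hWs u v).continuousAt hzW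
    exact continuousAt_fst.inner (ContinuousAt.comp (x := (vert, z₀, z₀))
      (g := fun z => d2 φ u v z) (f := fun q : E4 × ℂ × ℂ => q.2.1) this
      (continuous_fst.comp continuous_snd).continuousAt)
  have kb : ∀ u v : ℂ, ContinuousAt (fun q : E4 × ℂ × ℂ => sff φ q.1 u v q.2.2)
      (vert, z₀, z₀) := by
    intro u v
    have : ContinuousAt (fun z => d2 φ u v z) z₀ := (c2 hW hWs u v).continuousAt hzW
    exact continuousAt_fst.inner (ContinuousAt.comp (x := (vert, z₀, z₀))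
      (g := fun z => d2 φ u v z) (f := fun q : E4 × ℂ × ℂ => q.2.2) this
      (continuous_snd.comp continuous_snd).continuousAt)
  have kd : ContinuousAt (fun q : E4 × ℂ × ℂ => sff φ q.1 1 1 q.2.1 *
      sff φ q.1 Complex.I Complex.I q.2.2 - sff φ q.1 Complex.I 1 q.2.1 *
      sff φ q.1 1 Complex.I q.2.2) (vert, z₀, z₀) :=
    ((ka 1 1).mul (kb Complex.I Complex.I)).sub ((ka Complex.I 1).mul (kb 1 Complex.I))
  have hne : sff φ vert 1 1 z₀ * sff φ vert Complex.I Complex.I z₀ -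
      sff φ vert Complex.I 1 z₀ * sff φ vert 1 Complex.I z₀ ≠ 0 := by
    rw [sff_symm hsm vert Complex.I 1, ← sq]
    exact hk
  have k1 : ∀ᶠ q : E4 × ℂ × ℂ in 𝓝 (vert, z₀, z₀), q.2.1 ∈ W :=
    ((continuous_fst.comp continuous_snd).tendsto (vert, z₀, z₀)).eventually hzW
  obtain ⟨ε, hε, hb⟩ := Metric.eventually_nhds_iff.1 ((kd.eventually_ne hne).and k1)
  refine ⟨ε, hε, fun p hp z hz z' hz' hcr hcr' => ?_⟩
  have hb' : ∀ a ∈ ball z₀ ε, ∀ b ∈ ball z₀ ε, (sff φ p 1 1 a * sff φ p Complex.I Complex.I b -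
      sff φ p Complex.I 1 a * sff φ p 1 Complex.I b ≠ 0) ∧ a ∈ W := by
    intro a ha b hb1
    refine hb (y := (p, a, b)) ?_
    rw [Prod.dist_eq, max_lt_iff, Prod.dist_eq, max_lt_iff]
    exact ⟨by rw [dist_eq_norm]; exact hp, ha, hb1⟩
  set w : ℂ := z' - z with hw
  have hl : ∀ s : ℝ, HasDerivAt (fun s : ℝ => z + s • w) w s := fun s => by
    have := ((hasDerivAt_id s).smul_const w).const_add z
    simpa using this
  have hmem : ∀ s ∈ Icc (0 : ℝ) 1, z + s • w ∈ ball z₀ ε := fun s hs => by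
    have := (convex_ball z₀ ε) hz hz' (by linarith [hs.2] : 0 ≤ 1 - s) hs.1 (by ring)
    have e : (1 - s) • z + s • z' = z + s • w := by
      rw [hw, smul_sub, sub_smul, one_smul]; abel
    rwa [e] at this
  have hder : ∀ v : ℂ, ∀ s ∈ Icc (0 : ℝ) 1, HasDerivAt (fun s : ℝ => ⟪p, d1 φ v (z + s • w)⟫)
      (sff φ p w v (z + s • w)) s := fun v s hs => by
    have hsms : ContDiffAt ℝ ∞ φ (z + s • w) :=
      hWs.contDiffAt (hW.mem_nhds (hb' _ (hmem s hs) _ (hmem s hs)).2)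
    have hd : DifferentiableAt ℝ (fun a => d1 φ v a) (z + s • w) :=
      (Pool.Agent.Y640.RB.diffFderiv hsms).clm_apply (differentiableAt_const v)
    have h1 := hd.hasFDerivAt.comp_hasDerivAt s (hl s)
    exact (innerSL ℝ p).hasFDerivAt.comp_hasDerivAt s h1
  have hrolle : ∀ v : ℂ, ∃ a ∈ ball z₀ ε, sff φ p w v a = 0 := by
    intro v
    obtain ⟨s, hs, hs0⟩ := exists_hasDerivAt_eq_zero (f := fun s : ℝ => ⟪p, d1 φ v (z + s • w)⟫)
      (f' := fun s => sff φ p w v (z + s • w)) zero_lt_one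
      (fun s hs => (hder v s hs).continuousAt.continuousWithinAt) (by
        have e1 : z + (1 : ℝ) • w = z' := by rw [one_smul, hw]; abel
        have e0 : z + (0 : ℝ) • w = z := by rw [zero_smul, add_zero]
        simp only [e1, e0]
        rw [hcr v, hcr' v]) (fun s hs => hder v s (Ioo_subset_Icc_self hs))
    exact ⟨_, hmem s (Ioo_subset_Icc_self hs), hs0⟩
  obtain ⟨a, ha, ha0⟩ := hrolle 1
  obtain ⟨b, hb1, hb0⟩ := hrolle Complex.I
  have hdet := (hb' a ha b hb1).1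
  rw [sff_left] at ha0 hb0
  have h3 : w.re * (sff φ p 1 1 a * sff φ p Complex.I Complex.I b -
      sff φ p Complex.I 1 a * sff φ p 1 Complex.I b) = 0 := by
    linear_combination sff φ p Complex.I Complex.I b * ha0 - sff φ p Complex.I 1 a * hb0
  have h4 : w.im * (sff φ p 1 1 a * sff φ p Complex.I Complex.I b -
      sff φ p Complex.I 1 a * sff φ p 1 Complex.I b) = 0 := by
    linear_combination sff φ p 1 1 a * hb0 - sff φ p 1 Complex.I b * ha0
  have hw0 : w = 0 := Complex.ext ((mul_eq_zero.1 h3).resolve_right hdet)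
    ((mul_eq_zero.1 h4).resolve_right hdet)
  exact (sub_eq_zero.1 hw0).symm

/-- Nondegenerate local extrema have a definite second derivative. -/
theorem kdet_pos_of_extr {φ : ℂ → E4} {z : ℂ} (hsm : ContDiffAt ℝ ∞ φ z) {y : E4} (hy3 : 0 < y 3)
    {T : ℝ} (hk : kdet φ y z ≠ 0)
    (h : IsLocalMin (fun w => ⟪y, φ w⟫ + T) z ∨ IsLocalMax (fun w => ⟪y, φ w⟫ + T) z) :
    0 < kdet φ y z := by
  rcases h with h | h
  · have h2 : IsLocalMax (fun w => ⟪y, opp φ w⟫ + -T) z := by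
      have e1 : ∀ᶠ w in 𝓝 z, ⟪y, φ z⟫ + T ≤ ⟪y, φ w⟫ + T := h
      filter_upwards [e1] with w g1
      have a1 : ⟪y, opp φ w⟫ = -⟪y, φ w⟫ := inner_neg_right _ _
      have a2 : ⟪y, opp φ z⟫ = -⟪y, φ z⟫ := inner_neg_right _ _
      rw [a1, a2]
      linarith
    have h3 := crit_of_max (χ := opp φ) hsm.neg hy3 h2 (by rw [kdet_opp]; exact hk)
    have h4 := h3.2.2.2
    rwa [kdet_opp] at h4
  · exact (crit_of_max hsm hy3 h hk).2.2.2

/-- The local structure for directions close to the vertical one. -/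
theorem local_sad {φ : ℂ → E4} (h : Srf φ) (hM : MorseHt φ) {z₀ : ℂ}
    (hz₀ : z₀ ∈ ball (0 : ℂ) 1) :
    ∃ ε > 0, ∀ p : E4, ‖p - vert‖ < ε →
      (∀ z ∈ ball z₀ ε, ∀ z' ∈ ball z₀ ε, CritSad φ p z → CritSad φ p z' → z = z') ∧
      (¬ SaddlePt φ z₀ → ∀ z ∈ ball z₀ ε, ¬ CritSad φ p z) := by
  obtain ⟨W, hW, hWsub, hWs⟩ := h.smooth
  have hzW : W ∈ 𝓝 z₀ := hW.mem_nhds (hWsub (ball_subset_closedBall hz₀))
  have hsm := h.at (ball_subset_closedBall hz₀)
  have k1 : ∀ v : ℂ, ContinuousAt (fun q : E4 × ℂ => ⟪q.1, d1 φ v q.2⟫) (vert, z₀) := by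
    intro v
    have : ContinuousAt (fun z => d1 φ v z) z₀ := (c1 hW hWs v).continuousAt hzW
    exact continuousAt_fst.inner (ContinuousAt.comp (x := (vert, z₀))
      (g := fun z => d1 φ v z) (f := fun q : E4 × ℂ => q.2) this continuousAt_snd)
  have k2 : ∀ u v : ℂ, ContinuousAt (fun q : E4 × ℂ => sff φ q.1 u v q.2) (vert, z₀) := by
    intro u v
    have : ContinuousAt (fun z => d2 φ u v z) z₀ := (c2 hW hWs u v).continuousAt hzW
    exact continuousAt_fst.inner (ContinuousAt.comp (x := (vert, z₀))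
      (g := fun z => d2 φ u v z) (f := fun q : E4 × ℂ => q.2) this continuousAt_snd)
  have k3 : ContinuousAt (fun q : E4 × ℂ => kdet φ q.1 q.2) (vert, z₀) := by
    unfold kdet
    exact ((k2 1 1).mul (k2 Complex.I Complex.I)).sub ((k2 1 Complex.I).pow 2)
  have hnear : ∀ {P : E4 × ℂ → Prop}, (∀ᶠ q in 𝓝 (vert, z₀), P q) →
      ∃ ε > 0, ∀ p : E4, ‖p - vert‖ < ε → ∀ z ∈ ball z₀ ε, P (p, z) := by
    intro P hP
    obtain ⟨ε, hε, hb⟩ := Metric.eventually_nhds_iff.1 hP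
    refine ⟨ε, hε, fun p hp z hz => hb ?_⟩
    rw [Prod.dist_eq, max_lt_iff]
    exact ⟨by rw [dist_eq_norm]; exact hp, hz⟩
  by_cases hcr : ∀ v : ℂ, ⟪vert, d1 φ v z₀⟫ = 0
  · have hcr' : fderiv ℝ (fun w => φ w 3) z₀ = 0 := by
      ext v
      rw [height_eq, (hess hsm vert 0).1]
      exact hcr v
    have hnd : kdet φ vert z₀ ≠ 0 := kdet_ne h hM hz₀ hcr'
    obtain ⟨ε₁, hε₁, hb₁⟩ := local_unique hW hWs (hWsub (ball_subset_closedBall hz₀)) hnd
    by_cases hs : SaddlePt φ z₀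
    · exact ⟨ε₁, hε₁, fun p hp => ⟨fun z hz z' hz' hc hc' => hb₁ p hp z hz z' hz' hc.1 hc'.1,
        fun hns => absurd hs hns⟩⟩
    · have hpos : 0 < kdet φ vert z₀ := by
        refine kdet_pos_of_extr hsm (T := 0) (by rw [vert_three]; exact one_pos) hnd ?_
        rw [← height_eq]
        by_contra hcon
        rw [not_or] at hcon
        exact hs ⟨hcr', hcon.1, hcon.2⟩
      obtain ⟨ε, hε, hb⟩ := hnear (k3.eventually (lt_mem_nhds hpos))
      have hno : ∀ p : E4, ‖p - vert‖ < ε → ∀ z ∈ ball z₀ ε, ¬ CritSad φ p z := by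
        intro p hp z hz hcc
        have h1 := hb p hp z hz
        have h2 := hcc.2.2
        simp only at h1
        linarith
      exact ⟨ε, hε, fun p hp => ⟨fun z hz _ _ hc => absurd hc (hno p hp z hz),
        fun _ => hno p hp⟩⟩
  · push Not at hcr
    obtain ⟨v, hv⟩ := hcr
    obtain ⟨ε, hε, hb⟩ := hnear ((k1 v).eventually_ne hv)
    have hno : ∀ p : E4, ‖p - vert‖ < ε → ∀ z ∈ ball z₀ ε, ¬ CritSad φ p z :=
      fun p hp z hz hcc => hb p hp z hz (hcc.1 v)
    exact ⟨ε, hε, fun p hp => ⟨fun z hz _ _ hc => absurd hc (hno p hp z hz), fun _ => hno p hp⟩⟩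

/-- Directions close to the vertical one. -/
theorem near_vertS {φ : ℂ → E4} (h : Srf φ) (hM : MorseHt φ) {m : ℕ} (hm : nsad φ ≤ m) :
    ∃ ε > 0, ∀ p : E4, ‖p - vert‖ < ε → ∀ s : Finset ℂ,
      (∀ z ∈ s, z ∈ ball (0 : ℂ) 1 ∧ CritSad φ p z) → s.card ≤ m := by
  classical
  obtain ⟨δ, c, hδ, hδ1, hc, hcol⟩ := h.collar
  have hloc : ∀ z₀ : ℂ, ∃ ε > 0, z₀ ∈ ball (0 : ℂ) 1 → ∀ p : E4, ‖p - vert‖ < ε →
      (∀ z ∈ ball z₀ ε, ∀ z' ∈ ball z₀ ε, CritSad φ p z → CritSad φ p z' → z = z') ∧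
      (¬ SaddlePt φ z₀ → ∀ z ∈ ball z₀ ε, ¬ CritSad φ p z) := by
    intro z₀
    by_cases hz₀ : z₀ ∈ ball (0 : ℂ) 1
    · obtain ⟨ε, hε, hb⟩ := local_sad h hM hz₀
      exact ⟨ε, hε, fun _ => hb⟩
    · exact ⟨1, one_pos, fun h => absurd h hz₀⟩
  choose r hr hrb using hloc
  obtain ⟨t, ht1, ht2⟩ := (isCompact_closedBall (0 : ℂ) (1 - δ)).elim_nhds_subcover
    (fun z => ball z (r z)) (fun z _ => ball_mem_nhds z (hr z))
  obtain ⟨ε, hε, hεt⟩ := exists_min t r hr
  refine ⟨ε, hε, fun p hp s hs => ?_⟩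
  have hin : ∀ z ∈ s, ∃ z₀ ∈ t, z ∈ ball z₀ (r z₀) := by
    intro z hz
    obtain ⟨hz1, hz2⟩ := hs z hz
    have hzn : ‖z‖ ≤ 1 - δ := by
      by_contra hcon
      push Not at hcon
      have h1 := hcol z hcon (mem_ball_zero_iff.1 hz1)
      have h2 := hz2.1 z
      rw [h1, real_inner_smul_right, real_inner_comm, inner_vert] at h2
      have hz0 : 0 < ‖z‖ := by linarith
      have h3 : c * ‖z‖ * p 3 ≠ 0 := mul_ne_zero (mul_ne_zero hc hz0.ne') hz2.2.1.ne'
      exact h3 h2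
    have := ht2 (mem_closedBall_zero_iff.2 hzn)
    simpa using this
  choose! f hf1 hf2 using hin
  have hball : ∀ z ∈ s, f z ∈ ball (0 : ℂ) 1 := fun z hz => by
    have := mem_closedBall_zero_iff.1 (ht1 _ (hf1 z hz))
    exact mem_ball_zero_iff.2 (by linarith)
  have hpr : ∀ z ∈ s, ‖p - vert‖ < r (f z) := fun z hz => hp.trans_le (hεt _ (hf1 z hz))
  have hinj : InjOn f (s : Set ℂ) := by
    intro a ha b hb hab
    have h1 := (hrb (f a) (hball a ha) p (hpr a ha)).1 a (hf2 a ha) b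
      (by rw [hab]; exact hf2 b hb) (hs a ha).2 (hs b hb).2
    exact h1
  have hsub : ((s.image f : Finset ℂ) : Set ℂ) ⊆
      {z : ℂ | z ∈ ball (0 : ℂ) 1 ∧ SaddlePt φ z} := by
    intro w hw
    obtain ⟨z, hz, rfl⟩ := Finset.mem_image.1 (Finset.mem_coe.1 hw)
    refine ⟨hball z hz, ?_⟩
    by_contra hnm
    exact (hrb (f z) (hball z hz) p (hpr z hz)).2 hnm z (hf2 z hz) (hs z hz).2
  have h1 := (Set.encard_le_encard hsub).trans hm
  rw [Set.encard_coe_eq_coe_finsetCard, Finset.card_image_of_injOn hinj] at h1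
  exact_mod_cast h1

theorem critSad_lam {φ : ℂ → E4} {z : ℂ} (h : ContDiffAt ℝ ∞ φ z) {l : ℝ} (hl : 0 < l) (y : E4) :
    CritSad (fun w => lam l (φ w)) y z ↔ CritSad φ (lam l y) z := by
  have hd : DifferentiableAt ℝ φ z := h.differentiableAt (by simp)
  have hs : ∀ u v, sff (fun w => lam l (φ w)) y u v z = sff φ (lam l y) u v z := by
    intro u v
    unfold sff
    rw [d2_lam h, inner_lam]
  unfold CritSad Sad kdet
  simp only [hs, d1_lam hd, inner_lam, lam_three, mul_pos_iff_of_pos_left hl]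

/-- The saddle curvature of a stretched disc. -/
theorem curvS_lam {φ : ℂ → E4} (h : Srf φ) (hM : MorseHt φ) {m : ℕ} (hm : nsad φ ≤ m) :
    ∃ C : ℝ, 0 ≤ C ∧ ∀ l : ℝ, 0 < l →
      ∫⁻ z in ball (0 : ℂ) 1, curvS (fun w => lam l (φ w)) z ≤
        ENNReal.ofReal (Real.pi ^ 2 * m + C / l) := by
  obtain ⟨ε, hε, hnear⟩ := near_vertS h hM hm
  obtain ⟨c, hc1, hc2, hc3, -, -⟩ := Pool.Agent.U95.SD.counting h.patch isOpen_ball.measurableSet subset_rfl
  set K : ℝ≥0∞ := ∫⁻ z in ball (0 : ℂ) 1, curvS φ z with hK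
  have hKf : K ≠ ⊤ := curvS_finite h
  set σ : ℝ := (1 + 1 / ε)⁻¹ with hσd
  have hσ : 0 < σ := by positivity
  refine ⟨K.toReal / σ ^ 4, by positivity, fun l hl => ?_⟩
  have hL := ipatch_lam h.patch hl
  obtain ⟨c', hc1', hc2', -, hc4', hc5'⟩ := Pool.Agent.U95.SD.counting hL isOpen_ball.measurableSet subset_rfl
  have hbound : ∀ y, c' y ≤ HB.indicator (fun _ => (m : ℝ≥0∞)) y + c (σ • lam l y) := by
    intro y
    by_cases hy0 : c' y = 0
    · rw [hy0]; exact bot_le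
    obtain ⟨hyb, hy3⟩ := hc5' y hy0
    have hiff : ∀ z ∈ ball (0 : ℂ) 1, CritSad (fun w => lam l (φ w)) y z ↔
        CritSad φ (lam l y) z := fun z hz => critSad_lam (h.at (ball_subset_closedBall hz)) hl y
    have hl3 : 0 < l * y 3 := mul_pos hl hy3
    by_cases hn : ‖y - (y 3) • vert‖ < ε * (l * y 3)
    · -- almost vertical
      refine le_trans ?_ (le_add_right le_rfl)
      rw [indicator_of_mem (show y ∈ HB from ⟨hyb, hy3⟩)]
      refine hc4' y _ fun s hs => ?_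
      have h1 : ‖(l * y 3)⁻¹ • lam l y - vert‖ < ε := by
        have e : (l * y 3)⁻¹ • lam l y - vert = (l * y 3)⁻¹ • (y - (y 3) • vert) := by
          rw [lam_apply, smul_add, smul_sub, smul_smul, smul_smul]
          have : (l * y 3)⁻¹ * ((l - 1) * y 3) = 1 - (l * y 3)⁻¹ * y 3 := by
            field_simp
          rw [this, sub_smul, one_smul]
          abel
        rw [e, norm_smul, Real.norm_eq_abs, abs_of_pos (inv_pos.2 hl3), inv_mul_lt_iff₀ hl3,
          mul_comm]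
        exact hn
      have h2 := hnear _ h1 s fun z hz => ⟨(hs z hz).1, by
        rw [critSad_smul (inv_pos.2 hl3)]
        exact (hiff z (hs z hz).1).1 (hs z hz).2⟩
      exact_mod_cast h2
    · refine le_trans ?_ (le_add_left le_rfl)
      push Not at hn
      have hmem : σ • lam l y ∈ ball (0 : E4) 1 := by
        rw [mem_ball_zero_iff, norm_smul, Real.norm_eq_abs, abs_of_pos hσ]
        have h1 := norm_le_lam y l
        rw [abs_of_pos hl3] at h1
        have h2 : ‖y - (y 3) • vert‖ ≤ ‖y‖ := by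
          have e : ⟪y - (y 3) • vert, (y 3) • vert⟫ = 0 := by
            rw [inner_sub_left, real_inner_smul_right, real_inner_smul_right,
              real_inner_smul_left, real_inner_self_eq_norm_sq, norm_vert, real_inner_comm,
              inner_vert]
            ring
          have e2 := norm_add_sq_eq_norm_sq_add_norm_sq_of_inner_eq_zero _ _ e
          rw [sub_add_cancel] at e2
          have e3 := norm_nonneg (y - (y 3) • vert)
          have e4 := norm_nonneg y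
          have e5 := norm_nonneg ((y 3) • vert)
          by_contra hcon
          push Not at hcon
          nlinarith
        have h3 := mem_ball_zero_iff.1 hyb
        have h4 : l * y 3 ≤ 1 / ε * ‖y - (y 3) • vert‖ := by
          rw [one_div, ← div_eq_inv_mul, le_div_iff₀ hε, mul_comm]
          exact hn
        have h5 : ‖lam l y‖ < 1 + 1 / ε := by
          have h6 : (0 : ℝ) < 1 / ε := by positivity
          nlinarith
        rw [hσd, inv_mul_lt_one₀ (by positivity)]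
        exact h5
      refine hc4' y _ fun s hs => hc3 _ hmem s fun z hz => ⟨(hs z hz).1, ?_⟩
      rw [critSad_smul hσ]
      exact (hiff z (hs z hz).1).1 (hs z hz).2
  have h1 : ENNReal.ofReal (1 / 4) * ∫⁻ z in ball (0 : ℂ) 1, curvS (fun w => lam l (φ w)) z ≤
      m * ENNReal.ofReal (Real.pi ^ 2 / 4) +
        ENNReal.ofReal ((σ ^ 4 * l)⁻¹) * (ENNReal.ofReal (1 / 4) * K) := by
    rw [← hc2', ← vol_HB]
    calc ∫⁻ y, c' y ≤ ∫⁻ y, (HB.indicator (fun _ => (m : ℝ≥0∞)) y + c (σ • lam l y)) :=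
          lintegral_mono hbound
      _ = _ := by
          rw [lintegral_add_left (measurable_const.indicator measurable_HB),
            lintegral_indicator measurable_HB, setLIntegral_const, lint_lam hc1 hσ hl, hc2]
  have h2 : ENNReal.ofReal 4 * (ENNReal.ofReal (1 / 4) *
      ∫⁻ z in ball (0 : ℂ) 1, curvS (fun w => lam l (φ w)) z) =
      ∫⁻ z in ball (0 : ℂ) 1, curvS (fun w => lam l (φ w)) z := by
    rw [← mul_assoc, ← ENNReal.ofReal_mul (by norm_num)]
    norm_num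
  rw [← h2]
  refine (mul_le_mul_right h1 (ENNReal.ofReal 4)).trans ?_
  have hK' : K = ENNReal.ofReal K.toReal := (ENNReal.ofReal_toReal hKf).symm
  have hK0 : 0 ≤ K.toReal := ENNReal.toReal_nonneg
  rw [hK', ← ENNReal.ofReal_natCast, ← ENNReal.ofReal_mul (by positivity),
    ← ENNReal.ofReal_mul (by positivity), ← ENNReal.ofReal_mul (by positivity),
    ← ENNReal.ofReal_add (by positivity) (by positivity), ← ENNReal.ofReal_mul (by positivity)]
  apply ENNReal.ofReal_le_ofReal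
  rw [ENNReal.toReal_ofReal hK0]
  apply le_of_eq
  field_simp


end Pool.Agent.U95.SD
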