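import Mathlib
import Pool.Agent.U95.SD.Cnt

/-!
Isotopies of discs in the half-space; the lift and the stretching are isotopies (after
`Pool.Agent.N15.RC.Lift`).
-/

set_option autoImplicit false

namespace Pool.Agent.U95.SD

open scoped ContDiff RealInnerProductSpace ENNReal Topology
open MeasureTheory Set Metric Filter
open Pool.Agent.Y503.RB Pool.Agent.N503.ML Pool.Agent.N15.RC

/-- `φ` and `ψ` are isotopic rel boundary: there is a smooth family `Φ s` of discs in the half-space,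
all with the same boundary, such that `Φ 0 = φ` and `Φ 1 = ψ`. -/
def Isotopic (φ ψ : ℂ → E4) : Prop :=
  ∃ Φ : ℝ → ℂ → E4,
    (∃ W : Set ℂ, IsOpen W ∧ closedBall 0 1 ⊆ W ∧
      ContDiffOn ℝ ∞ (fun q : ℝ × ℂ => Φ q.1 q.2) (univ ×ˢ W)) ∧
    (∀ s, HalfDisc (Φ s)) ∧ (∀ s, ∀ z ∈ sphere (0 : ℂ) 1, Φ s z = φ z) ∧ Φ 0 = φ ∧ Φ 1 = ψ

theorem Isotopic.left {φ ψ : ℂ → E4} (h : Isotopic φ ψ) : HalfDisc φ := by
  obtain ⟨Φ, -, h1, -, h2, -⟩ := h
  rw [← h2]; exact h1 0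

theorem Isotopic.right {φ ψ : ℂ → E4} (h : Isotopic φ ψ) : HalfDisc ψ := by
  obtain ⟨Φ, -, h1, -, -, h2⟩ := h
  rw [← h2]; exact h1 1

theorem Isotopic.sphere {φ ψ : ℂ → E4} (h : Isotopic φ ψ) :
    ∀ z ∈ Metric.sphere (0 : ℂ) 1, ψ z = φ z := by
  obtain ⟨Φ, -, -, h1, -, h2⟩ := h
  intro z hz
  rw [← h2]; exact h1 1 z hz

theorem Isotopic.refl {φ : ℂ → E4} (h : HalfDisc φ) : Isotopic φ φ := by
  obtain ⟨W, hW, hWsub, hWs⟩ := h.smooth
  refine ⟨fun _ => φ, ⟨W, hW, hWsub, ?_⟩, fun _ => h, fun _ _ _ => rfl, rfl, rfl⟩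
  exact hWs.comp contDiff_snd.contDiffOn fun q hq => hq.2

theorem Isotopic.symm {φ ψ : ℂ → E4} (h : Isotopic φ ψ) : Isotopic ψ φ := by
  have hs := h.sphere
  obtain ⟨Φ, ⟨W, hW, hWsub, hWs⟩, h1, h2, h3, h4⟩ := h
  refine ⟨fun s => Φ (1 - s), ⟨W, hW, hWsub, ?_⟩, fun s => h1 _, fun s z hz => ?_, ?_, ?_⟩
  · have e : ContDiff ℝ ∞ (fun q : ℝ × ℂ => ((1 - q.1, q.2) : ℝ × ℂ)) := by fun_prop
    exact hWs.comp e.contDiffOn fun q hq => ⟨mem_univ _, hq.2⟩
  · show Φ (1 - s) z = ψ z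
    rw [h2 _ z hz, hs z hz]
  · simp only [sub_zero]; exact h4
  · simp only [sub_self]; exact h3

theorem Isotopic.trans {φ ψ χ : ℂ → E4} (h : Isotopic φ ψ) (h' : Isotopic ψ χ) :
    Isotopic φ χ := by
  have hs := h.sphere
  obtain ⟨Φ, ⟨W, hW, hWsub, hWs⟩, h1, h2, h3, h4⟩ := h
  obtain ⟨Φ', ⟨W', hW', hWsub', hWs'⟩, h1', h2', h3', h4'⟩ := h'
  set Ψ : ℝ → ℂ → E4 := fun s => if s < 1 / 2 then Φ (Real.smoothTransition (3 * s)) else
    Φ' (Real.smoothTransition (3 * s - 2)) with hΨ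
  have a1 : ∀ s : ℝ, s < 2 / 3 → Ψ s = Φ (Real.smoothTransition (3 * s)) := by
    intro s hs
    by_cases h : s < 1 / 2
    · simp only [hΨ, if_pos h]
    · simp only [hΨ, if_neg h]
      push Not at h
      rw [Real.smoothTransition.zero_of_nonpos (by linarith : 3 * s - 2 ≤ 0),
        Real.smoothTransition.one_of_one_le (by linarith : 1 ≤ 3 * s), h3', h4]
  have a2 : ∀ s : ℝ, 1 / 3 < s → Ψ s = Φ' (Real.smoothTransition (3 * s - 2)) := by
    intro s hs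
    by_cases h : s < 1 / 2
    · simp only [hΨ, if_pos h]
      rw [Real.smoothTransition.zero_of_nonpos (by linarith : 3 * s - 2 ≤ 0),
        Real.smoothTransition.one_of_one_le (by linarith : 1 ≤ 3 * s), h3', h4]
    · simp only [hΨ, if_neg h]
  refine ⟨Ψ, ⟨W ∩ W', hW.inter hW', subset_inter hWsub hWsub', ?_⟩, ?_, ?_, ?_, ?_⟩
  · rintro ⟨s, z⟩ ⟨-, hz⟩
    have hz' : z ∈ W ∩ W' := hz
    apply ContDiffAt.contDiffWithinAt
    rcases lt_or_ge s (2 / 3) with hs | hs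
    · have e : ContDiff ℝ ∞ (fun q : ℝ × ℂ => ((Real.smoothTransition (3 * q.1), q.2) : ℝ × ℂ)) :=
        (Real.smoothTransition.contDiff.comp (by fun_prop)).prodMk contDiff_snd
      have hat : ContDiffAt ℝ ∞ (fun q : ℝ × ℂ => Φ q.1 q.2)
          ((Real.smoothTransition (3 * s), z) : ℝ × ℂ) :=
        hWs.contDiffAt ((isOpen_univ.prod hW).mem_nhds ⟨mem_univ _, hz'.1⟩)
      have hat2 := hat.comp (s, z) (f := fun q : ℝ × ℂ =>
        ((Real.smoothTransition (3 * q.1), q.2) : ℝ × ℂ)) e.contDiffAt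
      refine hat2.congr_of_eventuallyEq ?_
      have : ∀ᶠ q : ℝ × ℂ in 𝓝 (s, z), q.1 < 2 / 3 :=
        (continuous_fst.tendsto (s, z)).eventually (gt_mem_nhds hs)
      filter_upwards [this] with q hq
      show Ψ q.1 q.2 = _
      rw [a1 _ hq]
      rfl
    · have e : ContDiff ℝ ∞ (fun q : ℝ × ℂ =>
          ((Real.smoothTransition (3 * q.1 - 2), q.2) : ℝ × ℂ)) :=
        (Real.smoothTransition.contDiff.comp (by fun_prop)).prodMk contDiff_snd
      have hat : ContDiffAt ℝ ∞ (fun q : ℝ × ℂ => Φ' q.1 q.2)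
          ((Real.smoothTransition (3 * s - 2), z) : ℝ × ℂ) :=
        hWs'.contDiffAt ((isOpen_univ.prod hW').mem_nhds ⟨mem_univ _, hz'.2⟩)
      have hat2 := hat.comp (s, z) (f := fun q : ℝ × ℂ =>
        ((Real.smoothTransition (3 * q.1 - 2), q.2) : ℝ × ℂ)) e.contDiffAt
      refine hat2.congr_of_eventuallyEq ?_
      have : ∀ᶠ q : ℝ × ℂ in 𝓝 (s, z), 1 / 3 < q.1 :=
        (continuous_fst.tendsto (s, z)).eventually (lt_mem_nhds (by linarith))
      filter_upwards [this] with q hq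
      show Ψ q.1 q.2 = _
      rw [a2 _ hq]
      rfl
  · intro s
    by_cases h : s < 1 / 2
    · rw [a1 s (by linarith)]; exact h1 _
    · rw [a2 s (by linarith)]; exact h1' _
  · intro s z hz
    by_cases h : s < 1 / 2
    · rw [a1 s (by linarith)]; exact h2 _ z hz
    · rw [a2 s (by linarith), h2' _ z hz, hs z hz]
  · rw [a1 0 (by norm_num), mul_zero, Real.smoothTransition.zero_of_nonpos le_rfl, h3]
  · rw [a2 1 (by norm_num), Real.smoothTransition.one_of_one_le (by norm_num), h4']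

/-- The lift of a disc is a disc. -/
theorem halfDisc_lift {φ : ℂ → E4} (h : HalfDisc φ) {q : E4} (hq : q 3 = 0) {T : ℝ}
    (hT0 : ∀ z ∈ closedBall (0 : ℂ) 1, 0 < T + ⟪q, φ z⟫) {g : ℝ → ℝ} (hgm : Monotone g)
    (hgs : ContDiff ℝ ∞ g) (hgn : ∀ t, 0 ≤ g t) {t₁ : ℝ} (ht₁ : 0 < t₁)
    (hg0 : ∀ t, t ≤ t₁ → g t = 0) :
    HalfDisc (fun w => lift g T q (φ w)) ∧
      ∀ z ∈ sphere (0 : ℂ) 1, lift g T q (φ z) = φ z := by
  obtain ⟨W, hW, hWsub, hWs⟩ := h.smooth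
  obtain ⟨δ, c, hδ, hδ1, hc, hcol⟩ := h.collar
  set ψ : ℂ → E4 := fun w => lift g T q (φ w) with hψ
  have hψ3 : ∀ z, ψ z 3 = φ z 3 + g (φ z 3) * (T + ⟪q, φ z⟫) := fun z => lift_three _ _ _ _
  have hψeq : ∀ z, g (φ z 3) = 0 → ψ z = φ z := by
    intro z hz
    rw [hψ]
    show φ z + (g (φ z 3) * (T + ⟪q, φ z⟫)) • vert = φ z
    rw [hz, zero_mul, zero_smul, add_zero]
  have hsph : ∀ z ∈ sphere (0 : ℂ) 1, ψ z = φ z := fun z hz =>
    hψeq z (hg0 _ (by rw [h.bdry z hz]; exact ht₁.le))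
  refine ⟨⟨?_, ?_, ?_, ?_, ?_, ?_⟩, hsph⟩
  · refine ⟨W, hW, hWsub, ?_⟩
    have e1 : ContDiffOn ℝ ∞ (fun w => φ w 3) W :=
      (EuclideanSpace.proj (3 : Fin 4) : E4 →L[ℝ] ℝ).contDiff.comp_contDiffOn hWs
    have e2 : ContDiffOn ℝ ∞ (fun w => ⟪q, φ w⟫) W :=
      (innerSL ℝ q).contDiff.comp_contDiffOn hWs
    exact hWs.add (((hgs.comp_contDiffOn e1).mul (contDiffOn_const.add e2)).smul
      contDiffOn_const)
  · intro a ha b hb hab
    exact h.inj ha hb (lift_inj hgm hq (hT0 a ha) hab)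
  · intro z hz
    exact (lift_deriv hgm hgs hq (h.at hz) (hT0 z hz) (h.imm z hz)).2
  · intro z hz
    rw [hψ3]
    have := mul_nonneg (hgn (φ z 3)) (hT0 z (ball_subset_closedBall hz)).le
    linarith [h.inside z hz]
  · intro z hz
    rw [hsph z hz]
    exact h.bdry z hz
  · have hδ' : 0 < min δ (t₁ / c) := lt_min hδ (by positivity)
    refine ⟨min δ (t₁ / c), c, hδ', (min_le_left _ _).trans_lt hδ1, hc, ?_⟩
    intro z h1 h2
    have hz0 : 0 < ‖z‖ := by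
      have := min_le_left δ (t₁ / c)
      linarith
    have h3 := hcol z (by have := min_le_left δ (t₁ / c); linarith) h2
    have hs1 : ‖z‖⁻¹ • z ∈ sphere (0 : ℂ) 1 := by
      rw [mem_sphere_zero_iff_norm, norm_smul, norm_inv, norm_norm, inv_mul_cancel₀ hz0.ne']
    rw [hsph _ hs1, ← h3]
    apply hψeq
    apply hg0
    have h4 : φ z 3 = c * (1 - ‖z‖) := by
      have := congrArg (fun w : E4 => w 3) h3
      have e : (φ (‖z‖⁻¹ • z) + (c * (1 - ‖z‖)) • vert) 3 =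
        φ (‖z‖⁻¹ • z) 3 + (c * (1 - ‖z‖)) * vert 3 := rfl
      simp only [e, vert_three, h.bdry _ hs1] at this
      linarith
    rw [h4]
    have h5 : 1 - ‖z‖ ≤ t₁ / c := by
      have := min_le_right δ (t₁ / c)
      linarith
    calc c * (1 - ‖z‖) ≤ c * (t₁ / c) := mul_le_mul_of_nonneg_left h5 hc.le
      _ = t₁ := by field_simp

/-- The lift is an isotopy. -/
theorem isotopic_lift {φ : ℂ → E4} (h : HalfDisc φ) {q : E4} (hq : q 3 = 0) {T : ℝ}
    (hT0 : ∀ z ∈ closedBall (0 : ℂ) 1, 0 < T + ⟪q, φ z⟫) {g : ℝ → ℝ} (hgm : Monotone g)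
    (hgs : ContDiff ℝ ∞ g) (hgn : ∀ t, 0 ≤ g t) {t₁ : ℝ} (ht₁ : 0 < t₁)
    (hg0 : ∀ t, t ≤ t₁ → g t = 0) :
    Isotopic φ (fun w => lift g T q (φ w)) := by
  obtain ⟨W, hW, hWsub, hWs⟩ := h.smooth
  have hσ : ∀ s : ℝ, 0 ≤ Real.smoothTransition s := Real.smoothTransition.nonneg
  have hall : ∀ s : ℝ, HalfDisc (fun w => lift (fun t => Real.smoothTransition s * g t) T q (φ w)) ∧
      ∀ z ∈ sphere (0 : ℂ) 1, lift (fun t => Real.smoothTransition s * g t) T q (φ z) = φ z :=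
    fun s => halfDisc_lift h hq hT0 (fun a b hab => mul_le_mul_of_nonneg_left (hgm hab) (hσ s))
      (contDiff_const.mul hgs) (fun t => mul_nonneg (hσ s) (hgn t)) ht₁
      (fun t ht => by simp only [hg0 t ht, mul_zero])
  refine ⟨fun s w => lift (fun t => Real.smoothTransition s * g t) T q (φ w),
    ⟨W, hW, hWsub, ?_⟩, fun s => (hall s).1, fun s => (hall s).2, ?_, ?_⟩
  · have e0 : ContDiffOn ℝ ∞ (fun p : ℝ × ℂ => φ p.2) (univ ×ˢ W) :=
      hWs.comp contDiff_snd.contDiffOn fun p hp => hp.2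
    have e1 : ContDiffOn ℝ ∞ (fun p : ℝ × ℂ => φ p.2 3) (univ ×ˢ W) :=
      (EuclideanSpace.proj (3 : Fin 4) : E4 →L[ℝ] ℝ).contDiff.comp_contDiffOn e0
    have e2 : ContDiffOn ℝ ∞ (fun p : ℝ × ℂ => ⟪q, φ p.2⟫) (univ ×ˢ W) :=
      (innerSL ℝ q).contDiff.comp_contDiffOn e0
    have e3 : ContDiffOn ℝ ∞ (fun p : ℝ × ℂ => Real.smoothTransition p.1) (univ ×ˢ W) :=
      (Real.smoothTransition.contDiff.comp contDiff_fst).contDiffOn
    exact e0.add (((e3.mul (hgs.comp_contDiffOn e1)).mul (contDiffOn_const.add e2)).smul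
      contDiffOn_const)
  · funext w
    show φ w + (Real.smoothTransition 0 * g (φ w 3) * (T + ⟪q, φ w⟫)) • vert = φ w
    rw [Real.smoothTransition.zero_of_nonpos le_rfl, zero_mul, zero_mul, zero_smul, add_zero]
  · funext w
    show φ w + (Real.smoothTransition 1 * g (φ w 3) * (T + ⟪q, φ w⟫)) • vert =
      φ w + (g (φ w 3) * (T + ⟪q, φ w⟫)) • vert
    rw [Real.smoothTransition.one_of_one_le le_rfl, one_mul]

theorem lam_one (x : E4) : lam 1 x = x := by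
  rw [lam_apply, sub_self, zero_mul, zero_smul, add_zero]

/-- Vertical stretching is an isotopy. -/
theorem isotopic_lam {φ : ℂ → E4} (h : HalfDisc φ) {l : ℝ} (hl : 0 < l) :
    Isotopic φ (fun w => lam l (φ w)) := by
  obtain ⟨W, hW, hWsub, hWs⟩ := h.smooth
  have hpos : ∀ s : ℝ, 0 < 1 + Real.smoothTransition s * (l - 1) := by
    intro s
    have h1 := Real.smoothTransition.nonneg s
    have h2 := Real.smoothTransition.le_one s
    rcases le_or_gt 1 l with h3 | h3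
    · have := mul_nonneg h1 (sub_nonneg.2 h3)
      linarith
    · nlinarith
  refine ⟨fun s w => lam (1 + Real.smoothTransition s * (l - 1)) (φ w), ⟨W, hW, hWsub, ?_⟩,
    fun s => (halfDisc_lam h (hpos s)).1, fun s => (halfDisc_lam h (hpos s)).2, ?_, ?_⟩
  · have e0 : ContDiffOn ℝ ∞ (fun p : ℝ × ℂ => φ p.2) (univ ×ˢ W) :=
      hWs.comp contDiff_snd.contDiffOn fun p hp => hp.2
    have e1 : ContDiffOn ℝ ∞ (fun p : ℝ × ℂ => φ p.2 3) (univ ×ˢ W) :=
      (EuclideanSpace.proj (3 : Fin 4) : E4 →L[ℝ] ℝ).contDiff.comp_contDiffOn e0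
    have e3 : ContDiffOn ℝ ∞ (fun p : ℝ × ℂ => Real.smoothTransition p.1) (univ ×ˢ W) :=
      (Real.smoothTransition.contDiff.comp contDiff_fst).contDiffOn
    have e4 : ContDiffOn ℝ ∞ (fun p : ℝ × ℂ => φ p.2 +
        ((1 + Real.smoothTransition p.1 * (l - 1) - 1) * φ p.2 3) • vert) (univ ×ˢ W) :=
      e0.add (((((contDiffOn_const.add (e3.mul contDiffOn_const)).sub contDiffOn_const)).mul
        e1).smul contDiffOn_const)
    exact e4
  · funext w
    show lam (1 + Real.smoothTransition 0 * (l - 1)) (φ w) = φ w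
    rw [Real.smoothTransition.zero_of_nonpos le_rfl, zero_mul, add_zero, lam_one]
  · funext w
    show lam (1 + Real.smoothTransition 1 * (l - 1)) (φ w) = lam l (φ w)
    rw [Real.smoothTransition.one_of_one_le le_rfl]
    congr 2
    ring

/-- Critical points with a definite second derivative are local extrema. -/
theorem max_of_cap {φ : ℂ → E4} {W : Set ℂ} (hW : IsOpen W) (hWs : ContDiffOn ℝ ∞ φ W) {z : ℂ}
    (hz : z ∈ W) {y : E4} (hcr : ∀ v : ℂ, ⟪y, d1 φ v z⟫ = 0) (h1 : sff φ y 1 1 z < 0)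
    (h2 : 0 < kdet φ y z) : IsLocalMax (fun w => ⟪y, φ w⟫) z := by
  have hzW : W ∈ 𝓝 z := hW.mem_nhds hz
  have k2 : ∀ u v : ℂ, ContinuousAt (fun w => sff φ y u v w) z := by
    intro u v
    have : ContinuousAt (fun z => d2 φ u v z) z := (c2 hW hWs u v).continuousAt hzW
    exact continuousAt_const.inner this
  have k3 : ContinuousAt (fun w => kdet φ y w) z := by
    unfold kdet
    exact ((k2 1 1).mul (k2 Complex.I Complex.I)).sub ((k2 1 Complex.I).pow 2)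
  obtain ⟨ε, hε, hb⟩ := Metric.eventually_nhds_iff.1
    ((((k2 1 1).eventually (gt_mem_nhds h1)).and (k3.eventually (lt_mem_nhds h2))).and hzW)
  have hVs : ∀ w ∈ ball z ε, ContDiffAt ℝ ∞ φ w := fun w hw =>
    hWs.contDiffAt (hW.mem_nhds (hb hw).2)
  filter_upwards [ball_mem_nhds z hε] with w hw
  exact (unique_crit (convex_ball z ε) hVs y (fun w hw => (hb hw).1) (mem_ball_self hε) hw hcr).1

theorem extr_of_kdet_pos {φ : ℂ → E4} {W : Set ℂ} (hW : IsOpen W) (hWs : ContDiffOn ℝ ∞ φ W)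
    {z : ℂ} (hz : z ∈ W) {y : E4} (hcr : ∀ v : ℂ, ⟪y, d1 φ v z⟫ = 0) (h2 : 0 < kdet φ y z) :
    IsLocalMin (fun w => ⟪y, φ w⟫) z ∨ IsLocalMax (fun w => ⟪y, φ w⟫) z := by
  rcases lt_trichotomy (sff φ y 1 1 z) 0 with h | h | h
  · exact Or.inr (max_of_cap hW hWs hz hcr h h2)
  · exfalso
    unfold kdet at h2
    rw [h, zero_mul] at h2
    have := sq_nonneg (sff φ y 1 Complex.I z)
    linarith
  · left
    have h3 := max_of_cap (φ := opp φ) hW hWs.neg hz (y := y)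
      (fun v => by rw [d1_opp, inner_neg_right, hcr v, neg_zero])
      (by rw [sff_opp]; linarith) (by rw [kdet_opp]; exact h2)
    have e1 : ∀ᶠ w in 𝓝 z, ⟪y, opp φ w⟫ ≤ ⟪y, opp φ z⟫ := h3
    show ∀ᶠ w in 𝓝 z, ⟪y, φ z⟫ ≤ ⟪y, φ w⟫
    filter_upwards [e1] with w g1
    have a1 : ⟪y, opp φ w⟫ = -⟪y, φ w⟫ := inner_neg_right _ _
    have a2 : ⟪y, opp φ z⟫ = -⟪y, φ z⟫ := inner_neg_right _ _
    rw [a1, a2] at g1
    linarith

/-- The height of the new disc is the linear function `⟨y, ·⟩` up to a constant, outside of the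
collar, where it has no critical points. The new disc is isotopic to the old one. -/
theorem lift_iso {φ : ℂ → E4} (h : HalfDisc φ) {y : E4} (hy3 : y 3 = 1)
    (hyn : ∀ z ∈ ball (0 : ℂ) 1, (∀ v : ℂ, ⟪y, d1 φ v z⟫ = 0) → kdet φ y z ≠ 0) :
    ∃ ψ : ℂ → E4, Isotopic φ ψ ∧ MorseHt ψ ∧
      (∀ z ∈ ball (0 : ℂ) 1, IsLocalMax (fun w => ψ w 3) z → CritCap φ y z) ∧
      (∀ z ∈ ball (0 : ℂ) 1, IsLocalMin (fun w => ψ w 3) z → CritCap (opp φ) y z) ∧
      (∀ z ∈ ball (0 : ℂ) 1, SaddlePt ψ z → CritSad φ y z) := by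
  set q : E4 := y - vert with hqd
  have hq : q 3 = 0 := by
    have : q 3 = y 3 - vert 3 := rfl
    rw [this, hy3, vert_three, sub_self]
  have hyq : ∀ x : E4, ⟪y, x⟫ = x 3 + ⟪q, x⟫ := by
    intro x
    rw [hqd, inner_sub_left, inner_vert]; ring
  obtain ⟨W, hW, hWsub, hWs⟩ := h.smooth
  obtain ⟨δ, c, hδ, hδ1, hc, hcol⟩ := h.collar
  have hcont : ContinuousOn φ (closedBall 0 1) := hWs.continuousOn.mono hWsub
  -- the constant `T`
  obtain ⟨T, hT0⟩ : ∃ T : ℝ, ∀ z ∈ closedBall (0 : ℂ) 1, 0 < T + ⟪q, φ z⟫ := by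
    have hc1 : ContinuousOn (fun z => ⟪q, φ z⟫) (closedBall 0 1) :=
      (innerSL ℝ q).continuous.comp_continuousOn hcont
    obtain ⟨z₁, -, hz₁⟩ := (isCompact_closedBall (0 : ℂ) 1).exists_isMinOn
      ⟨0, by simp⟩ hc1
    refine ⟨1 - ⟪q, φ z₁⟫, fun z hz => ?_⟩
    have := hz₁ hz
    simp only [mem_ofPred_eq] at this
    linarith
  -- the height `t₀`
  obtain ⟨t₀, ht₀, ht₁⟩ : ∃ t₀ : ℝ, 0 < t₀ ∧ ∀ z : ℂ, ‖z‖ ≤ 1 - δ → t₀ ≤ φ z 3 := by
    have hc1 : ContinuousOn (fun z => φ z 3) (closedBall 0 (1 - δ)) :=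
      (EuclideanSpace.proj (3 : Fin 4) : E4 →L[ℝ] ℝ).continuous.comp_continuousOn
        (hcont.mono (closedBall_subset_closedBall (by linarith)))
    obtain ⟨z₁, hz₁, hz₁'⟩ := (isCompact_closedBall (0 : ℂ) (1 - δ)).exists_isMinOn
      ⟨0, by simp; linarith⟩ hc1
    refine ⟨φ z₁ 3, h.inside z₁ ?_, fun z hz => hz₁' (mem_closedBall_zero_iff.2 hz)⟩
    have := mem_closedBall_zero_iff.1 hz₁
    exact mem_ball_zero_iff.2 (by linarith)
  set g : ℝ → ℝ := fun t => Real.smoothTransition (4 / t₀ * t - 1) with hgd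
  have hgm : Monotone g := fun a b hab => Real.smoothTransition.monotone (by
    have := mul_le_mul_of_nonneg_left hab (by positivity : 0 ≤ 4 / t₀)
    linarith)
  have hgs : ContDiff ℝ ∞ g := Real.smoothTransition.contDiff.comp (by fun_prop)
  have hg0 : ∀ t, t ≤ t₀ / 4 → g t = 0 := fun t ht => Real.smoothTransition.zero_of_nonpos (by
    have : 4 / t₀ * t ≤ 1 := by
      rw [div_mul_eq_mul_div, div_le_one ht₀]; linarith
    linarith)
  have hg1 : ∀ t, t₀ / 2 ≤ t → g t = 1 := fun t ht => Real.smoothTransition.one_of_one_le (by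
    have : 2 ≤ 4 / t₀ * t := by
      rw [div_mul_eq_mul_div, le_div_iff₀ ht₀]; linarith
    linarith)
  have hgn : ∀ t, 0 ≤ g t := fun t => Real.smoothTransition.nonneg _
  have hiso := isotopic_lift h hq hT0 hgm hgs hgn (by positivity : 0 < t₀ / 4) hg0
  set ψ : ℂ → E4 := fun w => lift g T q (φ w) with hψ
  have hψ3 : ∀ z, ψ z 3 = φ z 3 + g (φ z 3) * (T + ⟪q, φ z⟫) := fun z => lift_three _ _ _ _
  refine ⟨ψ, hiso, ?_⟩
  -- critical points of the new height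
  have key : ∀ z ∈ ball (0 : ℂ) 1, fderiv ℝ (fun w => ψ w 3) z = 0 →
      (∀ v, ⟪y, d1 φ v z⟫ = 0) ∧
      ((fun w => ψ w 3) =ᶠ[𝓝 z] fun w => ⟪y, φ w⟫ + T) := by
    intro z hz hcr
    have hzc := ball_subset_closedBall hz
    have hsm := h.at hzc
    by_cases hh : t₀ / 2 < φ z 3
    · have hev : (fun w => ψ w 3) =ᶠ[𝓝 z] fun w => ⟪y, φ w⟫ + T := by
        have hc3 : ContinuousAt (fun w => φ w 3) z :=
          ((EuclideanSpace.proj (3 : Fin 4) : E4 →L[ℝ] ℝ).continuous.continuousAt).comp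
            hsm.continuousAt
        filter_upwards [hc3.eventually (lt_mem_nhds hh)] with w hw
        rw [hψ3, hg1 _ hw.le, one_mul, hyq]
        ring
      refine ⟨fun v => ?_, hev⟩
      rw [← (hess hsm y T).1 v, ← hev.fderiv_eq, hcr]
      rfl
    · exfalso
      push Not at hh
      have hcl : 1 - δ < ‖z‖ := by
        by_contra hcon
        push Not at hcon
        have := ht₁ z hcon
        linarith
      have hz1 := mem_ball_zero_iff.1 hz
      have hz0 : 0 < ‖z‖ := by linarith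
      have h1 := collar_deriv h hδ1 hcol hcl hz1
      have h2 := (lift_deriv hgm hgs hq hsm (hT0 z hzc) (h.imm z hzc)).1 z
      have hdψ : DifferentiableAt ℝ ψ z := by
        have hd : DifferentiableAt ℝ φ z := hsm.differentiableAt (by simp)
        have e1 : DifferentiableAt ℝ (fun w => φ w 3) z :=
          (EuclideanSpace.proj (3 : Fin 4) : E4 →L[ℝ] ℝ).differentiableAt.comp z hd
        have e2 : DifferentiableAt ℝ (fun w => ⟪q, φ w⟫) z :=
          (innerSL ℝ q).differentiableAt.comp z hd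
        have e3 : DifferentiableAt ℝ (fun w => g (φ w 3)) z :=
          ((hgs.differentiable (by simp)) _).comp z e1
        exact hd.add ((e3.mul (e2.const_add T)).smul_const vert)
      have h3 : fderiv ℝ (fun w => ψ w 3) z z = (fderiv ℝ ψ z z) 3 := by
        have e1 : HasFDerivAt (fun w => ψ w 3)
            ((EuclideanSpace.proj (3 : Fin 4) : E4 →L[ℝ] ℝ).comp (fderiv ℝ ψ z)) z :=
          (EuclideanSpace.proj (3 : Fin 4) : E4 →L[ℝ] ℝ).hasFDerivAt.comp z hdψ.hasFDerivAt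
        rw [e1.fderiv]
        rfl
      rw [hcr] at h3
      have hqv : ⟪q, vert⟫ = 0 := by rw [real_inner_comm, inner_vert]; exact hq
      have h4 : (fderiv ℝ ψ z z) 3 =
          -(c * ‖z‖) * (1 + deriv g (φ z 3) * (T + ⟪q, φ z⟫)) := by
        have e0 : fderiv ℝ ψ z z = _ := h2
        rw [e0, h1, real_inner_smul_right, hqv, mul_zero, mul_zero, add_zero]
        have e1 : ((-(c * ‖z‖)) • vert + (deriv g (φ z 3) * ((-(c * ‖z‖)) • vert : E4) 3 *
          (T + ⟪q, φ z⟫)) • vert : E4) 3 = -(c * ‖z‖) * vert 3 +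
            (deriv g (φ z 3) * (-(c * ‖z‖) * vert 3) * (T + ⟪q, φ z⟫)) * vert 3 := rfl
        rw [e1, vert_three]
        ring
      have h5 : 0 < 1 + deriv g (φ z 3) * (T + ⟪q, φ z⟫) := by
        have := mul_nonneg (hgm.deriv_nonneg (x := φ z 3)) (hT0 z hzc).le
        linarith
      have h6 : 0 < c * ‖z‖ * (1 + deriv g (φ z 3) * (T + ⟪q, φ z⟫)) := by positivity
      rw [h4] at h3
      have h7 : (0 : ℂ →L[ℝ] ℝ) z = 0 := rfl
      rw [h7] at h3
      linarith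
  have hy0 : 0 < y 3 := by rw [hy3]; exact one_pos
  refine ⟨?_, ?_, ?_, ?_⟩
  · intro z hz hcr u hu
    obtain ⟨h1, h2⟩ := key z hz hcr
    have hsm := h.at (ball_subset_closedBall hz)
    refine nondegE hsm (hyn z hz h1) (fun v => ?_) (u := u)
    rw [← (hess hsm y T).2 u v, ← h2.fderiv.fderiv_eq]
    exact hu v
  · intro z hz1 hz2
    obtain ⟨h1, h2⟩ := key z hz1 hz2.fderiv_eq_zero
    refine crit_of_max (h.at (ball_subset_closedBall hz1)) hy0 (T := T) ?_ (hyn z hz1 h1)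
    have e1 : ∀ᶠ w in 𝓝 z, ψ w 3 ≤ ψ z 3 := hz2
    have e2 : ψ z 3 = ⟪y, φ z⟫ + T := h2.self_of_nhds
    filter_upwards [e1, h2] with w g1 g2
    rw [← g2, ← e2]
    exact g1
  · intro z hz1 hz2
    obtain ⟨h1, h2⟩ := key z hz1 hz2.fderiv_eq_zero
    refine crit_of_max (h.at (ball_subset_closedBall hz1)).neg hy0 (T := -T) ?_ ?_
    · have e1 : ∀ᶠ w in 𝓝 z, ψ z 3 ≤ ψ w 3 := hz2
      have e2 : ψ z 3 = ⟪y, φ z⟫ + T := h2.self_of_nhds
      filter_upwards [e1, h2] with w g1 g2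
      rw [g2, e2] at g1
      have a1 : ⟪y, opp φ w⟫ = -⟪y, φ w⟫ := inner_neg_right _ _
      have a2 : ⟪y, opp φ z⟫ = -⟪y, φ z⟫ := inner_neg_right _ _
      show ⟪y, opp φ w⟫ + -T ≤ ⟪y, opp φ z⟫ + -T
      rw [a1, a2]
      linarith
    · exact (kdet_opp φ y z).symm ▸ hyn z hz1 h1
  · intro z hz1 hz2
    obtain ⟨hcr, hnmin, hnmax⟩ := hz2
    obtain ⟨h1, h2⟩ := key z hz1 hcr
    have hsm := h.at (ball_subset_closedBall hz1)
    have hk := hyn z hz1 h1
    refine ⟨h1, hy0, ?_⟩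
    by_contra hcon
    push Not at hcon
    have hpos : 0 < kdet φ y z := lt_of_le_of_ne hcon hk.symm
    rcases extr_of_kdet_pos hW hWs (hWsub (ball_subset_closedBall hz1)) h1 hpos with h4 | h4
    · apply hnmin
      have e1 : ∀ᶠ w in 𝓝 z, ⟪y, φ z⟫ ≤ ⟪y, φ w⟫ := h4
      have e2 : ψ z 3 = ⟪y, φ z⟫ + T := h2.self_of_nhds
      show ∀ᶠ w in 𝓝 z, ψ z 3 ≤ ψ w 3
      filter_upwards [e1, h2] with w g1 g2
      rw [g2, e2]
      linarith
    · apply hnmax
      have e1 : ∀ᶠ w in 𝓝 z, ⟪y, φ w⟫ ≤ ⟪y, φ z⟫ := h4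
      have e2 : ψ z 3 = ⟪y, φ z⟫ + T := h2.self_of_nhds
      show ∀ᶠ w in 𝓝 z, ψ w 3 ≤ ψ z 3
      filter_upwards [e1, h2] with w g1 g2
      rw [g2, e2]
      linarith

end Pool.Agent.U95.SD
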