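import Mathlib
import Pool.Agent.U95.SD.Iso

/-!
Curvatures of the discs of an isotopy class, and the numbers of the minima, maxima and saddles (after
`Pool.Agent.N15.RC.Fin`).
-/

set_option autoImplicit false

namespace Pool.Agent.U95.SD

open scoped ContDiff RealInnerProductSpace ENNReal NNReal Topology
open MeasureTheory Set Metric Filter
open Pool.Agent.Y503.RB Pool.Agent.N503.ML Pool.Agent.N15.RC

/-- A direction in which the weighted number of the critical points is at most its mean. -/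
theorem mean_direction {φ : ℂ → E4} (hP : IPatch φ (ball 0 1)) (a b k : ℝ≥0) :
    ∃ y : E4, y 3 = 1 ∧
      (∀ z ∈ ball (0 : ℂ) 1, (∀ v : ℂ, ⟪y, d1 φ v z⟫ = 0) → kdet φ y z ≠ 0) ∧
      ENNReal.ofReal (Real.pi ^ 2) *
        (a * (({z : ℂ | z ∈ ball (0 : ℂ) 1 ∧ CritCap (opp φ) y z}.encard : ℕ∞) : ℝ≥0∞) +
        b * (({z : ℂ | z ∈ ball (0 : ℂ) 1 ∧ CritCap φ y z}.encard : ℕ∞) : ℝ≥0∞) +
        k * (({z : ℂ | z ∈ ball (0 : ℂ) 1 ∧ CritSad φ y z}.encard : ℕ∞) : ℝ≥0∞)) ≤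
      a * lowE φ + b * uppE φ + k * sadE φ := by
  obtain ⟨c, hc1, hc2, hc3, -, -⟩ :=
    Pool.Agent.N503.ML.counting hP isOpen_ball.measurableSet subset_rfl
  obtain ⟨d, hd1, hd2, hd3, -, -⟩ :=
    Pool.Agent.N503.ML.counting (ipatch_opp hP) isOpen_ball.measurableSet subset_rfl
  obtain ⟨e, he1, he2, he3, -, -⟩ :=
    Pool.Agent.U95.SD.counting hP isOpen_ball.measurableSet subset_rfl
  obtain ⟨Z, hZ, hZ2⟩ := sard hP
  set μ : Measure E4 := volume.restrict HB with hμ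
  have hvol : volume HB = ENNReal.ofReal (Real.pi ^ 2 / 4) := vol_HB
  have hμu : μ univ = ENNReal.ofReal (Real.pi ^ 2 / 4) := by
    rw [hμ, Measure.restrict_apply_univ, hvol]
  have hμ0 : μ ≠ 0 := by
    intro h
    have : μ univ = 0 := by rw [h]; rfl
    rw [hμu, ENNReal.ofReal_eq_zero] at this
    have := Real.pi_pos
    nlinarith [sq_nonneg Real.pi, mul_pos this this]
  have : IsFiniteMeasure μ := ⟨by rw [hμu]; exact ENNReal.ofReal_lt_top⟩
  have hN : μ (Z ∪ HBᶜ) = 0 := by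
    refine measure_union_null ?_ ?_
    · exact nonpos_iff_eq_zero.1 ((Measure.restrict_apply_le _ _).trans hZ.le)
    · rw [hμ, Measure.restrict_apply measurable_HB.compl, compl_inter_self, measure_empty]
  have hfm : Measurable fun y => (a : ℝ≥0∞) * d y + b * c y + k * e y :=
    ((hd1.const_mul _).add (hc1.const_mul _)).add (he1.const_mul _)
  obtain ⟨y, hyN, hy⟩ := exists_notMem_null_le_laverage hμ0 hfm.aemeasurable hN
  rw [mem_union, not_or, notMem_compl_iff] at hyN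
  obtain ⟨hyZ, hyH⟩ := hyN
  have hy3 : 0 < (y 3)⁻¹ := inv_pos.2 hyH.2
  have hpi : 0 < Real.pi ^ 2 := by positivity
  have hbound : ENNReal.ofReal (Real.pi ^ 2) * ((a : ℝ≥0∞) * d y + b * c y + k * e y) ≤
      a * lowE φ + b * uppE φ + k * sadE φ := by
    have h1 : ∫⁻ y, ((a : ℝ≥0∞) * d y + b * c y + k * e y) ∂μ ≤
        ENNReal.ofReal (1 / 4) * (a * lowE φ + b * uppE φ + k * sadE φ) := by
      calc ∫⁻ y, ((a : ℝ≥0∞) * d y + b * c y + k * e y) ∂μ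
          ≤ ∫⁻ y, ((a : ℝ≥0∞) * d y + b * c y + k * e y) := setLIntegral_le_lintegral _ _
        _ = (a : ℝ≥0∞) * (∫⁻ y, d y) + b * (∫⁻ y, c y) + k * (∫⁻ y, e y) := by
            have hm1 : Measurable fun y => (a : ℝ≥0∞) * d y + b * c y :=
              (hd1.const_mul _).add (hc1.const_mul _)
            rw [lintegral_add_left hm1,
              lintegral_add_left (hd1.const_mul _), lintegral_const_mul _ hd1,
              lintegral_const_mul _ hc1, lintegral_const_mul _ he1]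
        _ = _ := by
            rw [hd2, hc2, he2]
            have e1 : ∫⁻ z in ball (0 : ℂ) 1, curvE (opp φ) z = lowE φ := uppE_opp φ
            have e2 : ∫⁻ z in ball (0 : ℂ) 1, curvE φ z = uppE φ := rfl
            have e3 : ∫⁻ z in ball (0 : ℂ) 1, curvS φ z = sadE φ := rfl
            rw [e1, e2, e3]
            ring
    have h2 : ⨍⁻ y, ((a : ℝ≥0∞) * d y + b * c y + k * e y) ∂μ =
        (ENNReal.ofReal (Real.pi ^ 2 / 4))⁻¹ *
          ∫⁻ y, ((a : ℝ≥0∞) * d y + b * c y + k * e y) ∂μ := by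
      rw [laverage_eq, hμu, ENNReal.div_eq_inv_mul]
    rw [h2] at hy
    have h3 : ENNReal.ofReal (Real.pi ^ 2 / 4) ≠ 0 := by
      rw [Ne, ENNReal.ofReal_eq_zero, not_le]; positivity
    calc ENNReal.ofReal (Real.pi ^ 2) * ((a : ℝ≥0∞) * d y + b * c y + k * e y)
        ≤ ENNReal.ofReal (Real.pi ^ 2) * ((ENNReal.ofReal (Real.pi ^ 2 / 4))⁻¹ *
          (ENNReal.ofReal (1 / 4) * (a * lowE φ + b * uppE φ + k * sadE φ))) :=
          mul_le_mul_right (hy.trans (mul_le_mul_right h1 _)) _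
      _ = (ENNReal.ofReal (Real.pi ^ 2) * ((ENNReal.ofReal (Real.pi ^ 2 / 4))⁻¹ *
          ENNReal.ofReal (1 / 4))) * (a * lowE φ + b * uppE φ + k * sadE φ) := by ring
      _ = a * lowE φ + b * uppE φ + k * sadE φ := by
          rw [← ENNReal.ofReal_inv_of_pos (by positivity), ← ENNReal.ofReal_mul (by positivity),
            ← ENNReal.ofReal_mul (by positivity)]
          have : Real.pi ^ 2 * ((Real.pi ^ 2 / 4)⁻¹ * (1 / 4)) = 1 := by field_simp
          rw [this, ENNReal.ofReal_one, one_mul]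
  have hcnt : ∀ (χ : ℂ → E4) (e : E4 → ℝ≥0∞), (∀ y ∈ ball (0 : E4) 1, ∀ s : Finset ℂ,
      (∀ z ∈ s, z ∈ ball (0 : ℂ) 1 ∧ CritCap χ y z) → (s.card : ℝ≥0∞) ≤ e y) →
      (({z : ℂ | z ∈ ball (0 : ℂ) 1 ∧ CritCap χ ((y 3)⁻¹ • y) z}.encard : ℕ∞) : ℝ≥0∞) ≤ e y := by
    intro χ e he
    refine encard_le_ennreal fun s hs => he y hyH.1 s fun z hz => ?_
    exact ⟨(hs z hz).1, (critCap_smul hy3).1 (hs z hz).2⟩
  have hcntS : (({z : ℂ | z ∈ ball (0 : ℂ) 1 ∧ CritSad φ ((y 3)⁻¹ • y) z}.encard : ℕ∞) : ℝ≥0∞) ≤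
      e y := by
    refine encard_le_ennreal fun s hs => he3 y hyH.1 s fun z hz => ?_
    exact ⟨(hs z hz).1, (critSad_smul hy3).1 (hs z hz).2⟩
  refine ⟨(y 3)⁻¹ • y, ?_, ?_, ?_⟩
  · show (y 3)⁻¹ * y 3 = 1
    exact inv_mul_cancel₀ hyH.2.ne'
  · intro z hz hv
    rw [kdet_smul]
    refine mul_ne_zero (by positivity) (hZ2 y hyZ ?_ z hz fun v => ?_)
    · rintro rfl
      exact lt_irrefl _ hyH.2
    · have := hv v
      rw [real_inner_smul_left] at this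
      exact (mul_eq_zero.1 this).resolve_left hy3.ne'
  · refine le_trans (mul_le_mul_right (add_le_add (add_le_add (mul_le_mul_right (hcnt _ d hd3) _)
      (mul_le_mul_right (hcnt _ c hc3) _)) (mul_le_mul_right hcntS _)) _) hbound

/-- **(A)** From curvature to critical points. -/
theorem crit_of_curv {φ : ℂ → E4} (h : HalfDisc φ) (a b c : ℝ≥0) :
    ∃ ψ : ℂ → E4, Isotopic φ ψ ∧ MorseHt ψ ∧
      ENNReal.ofReal (Real.pi ^ 2) *
        (a * (nmin ψ : ℝ≥0∞) + b * (nmax ψ : ℝ≥0∞) + c * (nsad ψ : ℝ≥0∞)) ≤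
        a * lowE φ + b * uppE φ + c * sadE φ := by
  obtain ⟨y, hy3, hyn, hyc⟩ := mean_direction h.patch a b c
  obtain ⟨ψ, h1, h3, h4, h5, h7⟩ := lift_iso h hy3 hyn
  refine ⟨ψ, h1, h3, le_trans (mul_le_mul_right (add_le_add (add_le_add (mul_le_mul_right ?_ _)
    (mul_le_mul_right ?_ _)) (mul_le_mul_right ?_ _)) _) hyc⟩
  · have h6 : nmin ψ ≤ {z : ℂ | z ∈ ball (0 : ℂ) 1 ∧ CritCap (opp φ) y z}.encard :=
      Set.encard_le_encard fun z hz => ⟨hz.1, h5 z hz.1 hz.2⟩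
    exact_mod_cast h6
  · have h6 : nmax ψ ≤ {z : ℂ | z ∈ ball (0 : ℂ) 1 ∧ CritCap φ y z}.encard :=
      Set.encard_le_encard fun z hz => ⟨hz.1, h4 z hz.1 hz.2⟩
    exact_mod_cast h6
  · have h6 : nsad ψ ≤ {z : ℂ | z ∈ ball (0 : ℂ) 1 ∧ CritSad φ y z}.encard :=
      Set.encard_le_encard fun z hz => ⟨hz.1, h7 z hz.1 hz.2⟩
    exact_mod_cast h6

/-- The number of the saddles is finite. -/
theorem nsad_finite {φ : ℂ → E4} (h : Srf φ) (hM : MorseHt φ) : nsad φ ≠ ⊤ := by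
  classical
  obtain ⟨W, hW, hWsub, hWs⟩ := h.smooth
  obtain ⟨δ, c, hδ, hδ1, hc, hcol⟩ := h.collar
  have hcc : ∀ z ∈ ball (0 : ℂ) 1, SaddlePt φ z → ∀ v : ℂ, ⟪vert, d1 φ v z⟫ = 0 := by
    intro z hz hm v
    have hsm := h.at (ball_subset_closedBall hz)
    rw [← (hess hsm vert 0).1 v, ← height_eq, hm.1]
    rfl
  have hloc : ∀ z₀ : ℂ, ∃ ε > 0, z₀ ∈ ball (0 : ℂ) 1 →
      (∀ z ∈ ball z₀ ε, ∀ z' ∈ ball z₀ ε, (∀ v : ℂ, ⟪vert, d1 φ v z⟫ = 0) →
        (∀ v : ℂ, ⟪vert, d1 φ v z'⟫ = 0) → z = z') := by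
    intro z₀
    by_cases hz₀ : z₀ ∈ ball (0 : ℂ) 1
    · have hsm := h.at (ball_subset_closedBall hz₀)
      have hzW : W ∈ 𝓝 z₀ := hW.mem_nhds (hWsub (ball_subset_closedBall hz₀))
      by_cases hcr : ∀ v : ℂ, ⟪vert, d1 φ v z₀⟫ = 0
      · have hcr' : fderiv ℝ (fun w => φ w 3) z₀ = 0 := by
          ext v
          rw [height_eq, (hess hsm vert 0).1]
          exact hcr v
        obtain ⟨ε, hε, hb⟩ := local_unique hW hWs (hWsub (ball_subset_closedBall hz₀))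
          (kdet_ne h hM hz₀ hcr')
        exact ⟨ε, hε, fun _ => hb vert (by simpa using hε)⟩
      · push Not at hcr
        obtain ⟨v, hv⟩ := hcr
        have k1 : ContinuousAt (fun z : ℂ => ⟪vert, d1 φ v z⟫) z₀ :=
          continuousAt_const.inner ((c1 hW hWs v).continuousAt hzW)
        obtain ⟨ε, hε, hb⟩ := Metric.eventually_nhds_iff.1 (k1.eventually_ne hv)
        exact ⟨ε, hε, fun _ z hz _ _ hc _ => absurd (hc v) (hb hz)⟩
    · exact ⟨1, one_pos, fun h => absurd h hz₀⟩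
  choose r hr hrb using hloc
  obtain ⟨t, ht1, ht2⟩ := (isCompact_closedBall (0 : ℂ) (1 - δ)).elim_nhds_subcover
    (fun z => ball z (r z)) (fun z _ => ball_mem_nhds z (hr z))
  have hin : ∀ z ∈ {z : ℂ | z ∈ ball (0 : ℂ) 1 ∧ SaddlePt φ z},
      ∃ z₀ ∈ t, z ∈ ball z₀ (r z₀) := by
    intro z hz
    obtain ⟨hz1, hz2⟩ := hz
    have hzn : ‖z‖ ≤ 1 - δ := by
      by_contra hcon
      push Not at hcon
      have h1 := hcol z hcon (mem_ball_zero_iff.1 hz1)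
      have h2 := hcc z hz1 hz2 z
      rw [h1, real_inner_smul_right, real_inner_self_eq_norm_sq, norm_vert] at h2
      have hz0 : 0 < ‖z‖ := by linarith
      have h3 : c * ‖z‖ * 1 ^ 2 ≠ 0 := by
        rw [one_pow, mul_one]; exact mul_ne_zero hc hz0.ne'
      exact h3 h2
    have := ht2 (mem_closedBall_zero_iff.2 hzn)
    simpa using this
  choose! f hf1 hf2 using hin
  have hinj : InjOn f {z : ℂ | z ∈ ball (0 : ℂ) 1 ∧ SaddlePt φ z} := by
    intro x hx w hw hxw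
    have hfb : f x ∈ ball (0 : ℂ) 1 := by
      have := mem_closedBall_zero_iff.1 (ht1 _ (hf1 x hx))
      exact mem_ball_zero_iff.2 (by linarith)
    exact hrb (f x) hfb x (hf2 x hx) w (by rw [hxw]; exact hf2 w hw) (hcc x hx.1 hx.2)
      (hcc w hw.1 hw.2)
  have hfin : {z : ℂ | z ∈ ball (0 : ℂ) 1 ∧ SaddlePt φ z}.Finite :=
    Set.Finite.of_finite_image (t.finite_toSet.subset (by
      rintro _ ⟨x, hx, rfl⟩
      exact hf1 x hx)) hinj
  exact Set.encard_ne_top_iff.2 hfin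

/-- **(B)** From critical points to curvature: vertical stretching. -/
theorem curv_of_crit {ψ : ℂ → E4} (h : HalfDisc ψ) (hM : MorseHt ψ) {η : ℝ} (hη : 0 < η) :
    ∃ φ : ℂ → E4, Isotopic ψ φ ∧
      lowE φ ≤ ENNReal.ofReal (Real.pi ^ 2) * (nmin ψ : ℝ≥0∞) + ENNReal.ofReal η ∧
      uppE φ ≤ ENNReal.ofReal (Real.pi ^ 2) * (nmax ψ : ℝ≥0∞) + ENNReal.ofReal η ∧
      sadE φ ≤ ENNReal.ofReal (Real.pi ^ 2) * (nsad ψ : ℝ≥0∞) + ENNReal.ofReal η := by
  have hs := srf_of h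
  have hf1 := nmax_finite hs hM
  have hf2 := nmax_finite hs.opp (morse_opp hM)
  have hf3 := nsad_finite hs hM
  obtain ⟨M, hMe⟩ := ENat.ne_top_iff_exists.1 hf1
  obtain ⟨m, hme⟩ := ENat.ne_top_iff_exists.1 hf2
  obtain ⟨s, hse⟩ := ENat.ne_top_iff_exists.1 hf3
  obtain ⟨C, hC, hCb⟩ := curv_lam hs hM (m := M) hMe.ge
  obtain ⟨D, hD, hDb⟩ := curv_lam hs.opp (morse_opp hM) (m := m) hme.ge
  obtain ⟨F, hF, hFb⟩ := curvS_lam hs hM (m := s) hse.ge
  have hl : 0 < (C + D + F) / η + 1 := by positivity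
  have hgen : ∀ (E : ℝ) (n : ℕ), 0 ≤ E → E ≤ C + D + F →
      ENNReal.ofReal (Real.pi ^ 2 * n + E / ((C + D + F) / η + 1)) ≤
        ENNReal.ofReal (Real.pi ^ 2) * (n : ℝ≥0∞) + ENNReal.ofReal η := by
    intro E n hE hE2
    have h1 : E / ((C + D + F) / η + 1) ≤ η := by
      rw [div_le_iff₀ hl]
      have : η * ((C + D + F) / η + 1) = C + D + F + η := by field_simp
      rw [this]
      linarith
    have h2 : ENNReal.ofReal (Real.pi ^ 2) * (n : ℝ≥0∞) + ENNReal.ofReal η =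
        ENNReal.ofReal (Real.pi ^ 2 * n + η) := by
      rw [ENNReal.ofReal_add (by positivity) hη.le, ENNReal.ofReal_mul (by positivity),
        ENNReal.ofReal_natCast]
    rw [h2]
    exact ENNReal.ofReal_le_ofReal (by linarith)
  refine ⟨_, isotopic_lam h hl, ?_, ?_, ?_⟩
  · rw [← uppE_opp, ← lam_opp, ← nmax_opp, ← hme]
    exact (hDb _ hl).trans (by simpa using hgen D m hD (by linarith))
  · rw [← hMe]
    exact (hCb _ hl).trans (by simpa using hgen C M hC (by linarith))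
  · rw [← hse]
    exact (hFb _ hl).trans (by simpa using hgen F s hF (by linarith))

/-- **The curvatures and the numbers of critical points in an isotopy class.** -/
theorem inf_eq (χ : ℂ → E4) (a b c : ℝ≥0) :
    ⨅ (φ : ℂ → E4) (_ : Isotopic χ φ),
        ((a : ℝ≥0∞) * lowE φ + b * uppE φ + c * sadE φ) =
      ⨅ (ψ : ℂ → E4) (_ : Isotopic χ ψ ∧ MorseHt ψ),
        ENNReal.ofReal (Real.pi ^ 2) *
          ((a : ℝ≥0∞) * (nmin ψ : ℝ≥0∞) + b * (nmax ψ : ℝ≥0∞) + c * (nsad ψ : ℝ≥0∞)) := by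
  apply le_antisymm
  · refine le_iInf₂ fun ψ hψ => ?_
    refine ENNReal.le_of_forall_pos_le_add fun ε hε _ => ?_
    have hab : (0 : ℝ) < a + b + c + 1 := by positivity
    obtain ⟨φ, h1, h3, h4, h5⟩ := curv_of_crit hψ.1.right hψ.2 (η := ε / (a + b + c + 1))
      (by positivity)
    refine (iInf₂_le φ (hψ.1.trans h1)).trans ?_
    refine (add_le_add (add_le_add (mul_le_mul_right h3 _) (mul_le_mul_right h4 _))
      (mul_le_mul_right h5 _)).trans ?_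
    have h5 : (a : ℝ≥0∞) * ENNReal.ofReal (ε / (a + b + c + 1)) +
        b * ENNReal.ofReal (ε / (a + b + c + 1)) + c * ENNReal.ofReal (ε / (a + b + c + 1)) ≤
        (ε : ℝ≥0∞) := by
      rw [← add_mul, ← add_mul, ← ENNReal.coe_add, ← ENNReal.coe_add, ← ENNReal.ofReal_coe_nnreal,
        ← ENNReal.ofReal_mul (by positivity), ← ENNReal.ofReal_coe_nnreal (p := ε)]
      apply ENNReal.ofReal_le_ofReal
      push_cast
      rw [← mul_div_assoc, div_le_iff₀ hab]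
      have : (0 : ℝ) < ε := by exact_mod_cast hε
      nlinarith
    calc _ = ENNReal.ofReal (Real.pi ^ 2) * ((a : ℝ≥0∞) * (nmin ψ : ℝ≥0∞) +
          b * (nmax ψ : ℝ≥0∞) + c * (nsad ψ : ℝ≥0∞)) +
          ((a : ℝ≥0∞) * ENNReal.ofReal (ε / (a + b + c + 1)) +
          b * ENNReal.ofReal (ε / (a + b + c + 1)) +
          c * ENNReal.ofReal (ε / (a + b + c + 1))) := by ring
      _ ≤ _ := by gcongr
  · refine le_iInf₂ fun φ hφ => ?_
    obtain ⟨ψ, h1, h3, h4⟩ := crit_of_curv hφ.right a b c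
    exact (iInf₂_le ψ ⟨hφ.trans h1, h3⟩).trans h4

theorem nat_of_lt {x : ℕ∞} {N : ℕ}
    (h : ENNReal.ofReal (Real.pi ^ 2) * (x : ℝ≥0∞) < ENNReal.ofReal (Real.pi ^ 2 * (N + 1))) :
    x ≤ N := by
  have hpi : 0 < Real.pi ^ 2 := by positivity
  have h4 : ENNReal.ofReal (Real.pi ^ 2) * (x : ℝ≥0∞) <
      ENNReal.ofReal (Real.pi ^ 2) * ((N + 1 : ℕ) : ℝ≥0∞) := by
    refine h.trans_eq ?_
    rw [← ENNReal.ofReal_natCast, ← ENNReal.ofReal_mul (by positivity)]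
    push_cast
    rfl
  have h5 : (x : ℝ≥0∞) < ((N + 1 : ℕ) : ℝ≥0∞) := by
    by_contra hc
    push Not at hc
    exact absurd (mul_le_mul_right hc (ENNReal.ofReal (Real.pi ^ 2))) (not_le.2 h4)
  have h6 : x < ((N + 1 : ℕ) : ℕ∞) := by exact_mod_cast h5
  have h7 : x < (N : ℕ∞) + 1 := by simpa using h6
  exact Order.lt_add_one_iff_of_not_isMax (by simp) |>.1 h7

/-- The number of the critical points of the height in the open disc. -/
noncomputable def ncrit (φ : ℂ → E4) : ℕ∞ :=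
  {z : ℂ | z ∈ ball (0 : ℂ) 1 ∧ fderiv ℝ (fun w => φ w 3) z = 0}.encard

theorem ncrit_eq {φ : ℂ → E4} (h : HalfDisc φ) (hM : MorseHt φ) :
    ncrit φ = nmin φ + nmax φ + nsad φ := by
  have hs := srf_of h
  have hd1 : Disjoint {z : ℂ | z ∈ ball (0 : ℂ) 1 ∧ IsLocalMin (fun w => φ w 3) z}
      {z : ℂ | z ∈ ball (0 : ℂ) 1 ∧ IsLocalMax (fun w => φ w 3) z} := by
    rw [Set.disjoint_left]
    rintro z ⟨hz, h1⟩ ⟨-, h2⟩
    have hsm := h.at (ball_subset_closedBall hz)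
    have hk := kdet_ne hs hM hz h1.fderiv_eq_zero
    have hv : 0 < vert 3 := by rw [vert_three]; exact one_pos
    have a1 := crit_of_max hsm (T := 0) hv (by rwa [← height_eq]) hk
    have h3 : IsLocalMax (fun w => ⟪vert, opp φ w⟫ + 0) z := by
      have e1 : ∀ᶠ w in 𝓝 z, φ z 3 ≤ φ w 3 := h1
      filter_upwards [e1] with w g1
      rw [inner_vert, inner_vert, opp_three, opp_three]
      linarith
    have a2 := crit_of_max (χ := opp φ) hsm.neg hv h3 (by rw [kdet_opp]; exact hk)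
    have a3 := a1.2.2.1
    have a4 := a2.2.2.1
    rw [sff_opp] at a4
    linarith
  have hd2 : Disjoint ({z : ℂ | z ∈ ball (0 : ℂ) 1 ∧ IsLocalMin (fun w => φ w 3) z} ∪
      {z : ℂ | z ∈ ball (0 : ℂ) 1 ∧ IsLocalMax (fun w => φ w 3) z})
      {z : ℂ | z ∈ ball (0 : ℂ) 1 ∧ SaddlePt φ z} := by
    rw [Set.disjoint_left]
    rintro z (⟨-, h1⟩ | ⟨-, h1⟩) ⟨-, -, h2, h3⟩
    · exact h2 h1
    · exact h3 h1
  unfold ncrit nmin nmax nsad
  rw [← Set.encard_union_eq hd1, ← Set.encard_union_eq hd2]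
  congr 1
  ext z
  simp only [mem_ofPred_eq, mem_union]
  constructor
  · rintro ⟨hz, hc⟩
    by_cases h1 : IsLocalMin (fun w => φ w 3) z
    · exact Or.inl (Or.inl ⟨hz, h1⟩)
    · by_cases h2 : IsLocalMax (fun w => φ w 3) z
      · exact Or.inl (Or.inr ⟨hz, h2⟩)
      · exact Or.inr ⟨hz, hc, h1, h2⟩
  · rintro ((⟨hz, h1⟩ | ⟨hz, h1⟩) | ⟨hz, h1⟩)
    · exact ⟨hz, h1.fderiv_eq_zero⟩
    · exact ⟨hz, h1.fderiv_eq_zero⟩
    · exact ⟨hz, h1.1⟩

/-- The number of critical points and the total absolute curvature. -/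
theorem tfae_crit (χ : ℂ → E4) (N : ℕ) :
    List.TFAE [
      ∃ ψ : ℂ → E4, Isotopic χ ψ ∧ MorseHt ψ ∧ ncrit ψ ≤ N,
      ∃ φ : ℂ → E4, Isotopic χ φ ∧
        lowE φ + uppE φ + sadE φ < ENNReal.ofReal (Real.pi ^ 2 * (N + 1)),
      ∀ η : ℝ, 0 < η → ∃ φ : ℂ → E4, Isotopic χ φ ∧
        lowE φ + uppE φ + sadE φ ≤ ENNReal.ofReal (Real.pi ^ 2 * N + η)] := by
  have hpi : 0 < Real.pi ^ 2 := by positivity
  tfae_have 1 → 3 := by
    rintro ⟨ψ, h1, h3, h4⟩ η hη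
    obtain ⟨φ, a1, a2, a3, a4⟩ := curv_of_crit h1.right h3 (η := η / 3) (by positivity)
    refine ⟨φ, h1.trans a1, (add_le_add (add_le_add a2 a3) a4).trans ?_⟩
    rw [ncrit_eq h1.right h3] at h4
    have h5 : (nmin ψ : ℝ≥0∞) + (nmax ψ : ℝ≥0∞) + (nsad ψ : ℝ≥0∞) ≤ (N : ℝ≥0∞) := by
      exact_mod_cast h4
    calc _ = ENNReal.ofReal (Real.pi ^ 2) * ((nmin ψ : ℝ≥0∞) + (nmax ψ : ℝ≥0∞) +
          (nsad ψ : ℝ≥0∞)) + (ENNReal.ofReal (η / 3) + ENNReal.ofReal (η / 3) +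
          ENNReal.ofReal (η / 3)) := by ring
      _ ≤ ENNReal.ofReal (Real.pi ^ 2) * (N : ℝ≥0∞) + ENNReal.ofReal η := by
          refine add_le_add (mul_le_mul_right h5 _) (le_of_eq ?_)
          rw [← ENNReal.ofReal_add (by positivity) (by positivity),
            ← ENNReal.ofReal_add (by positivity) (by positivity)]
          congr 1
          ring
      _ = _ := by
          rw [ENNReal.ofReal_add (by positivity) hη.le, ENNReal.ofReal_mul (by positivity),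
            ENNReal.ofReal_natCast]
  tfae_have 3 → 2 := by
    intro h
    obtain ⟨φ, h1, h3⟩ := h 1 one_pos
    refine ⟨φ, h1, h3.trans_lt ?_⟩
    rw [ENNReal.ofReal_lt_ofReal_iff (by positivity)]
    have := Real.pi_gt_three
    nlinarith
  tfae_have 2 → 1 := by
    rintro ⟨φ, h1, h3⟩
    obtain ⟨ψ, a1, a3, a4⟩ := crit_of_curv h1.right 1 1 1
    refine ⟨ψ, h1.trans a1, a3, ?_⟩
    simp only [ENNReal.coe_one, one_mul] at a4
    rw [ncrit_eq a1.right a3]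
    refine nat_of_lt (lt_of_eq_of_lt ?_ (a4.trans_lt h3))
    push_cast
    rfl
  tfae_finish

/-- The number of the local minima. -/
theorem tfae_min (χ : ℂ → E4) (m : ℕ) :
    List.TFAE [
      ∃ ψ : ℂ → E4, Isotopic χ ψ ∧ MorseHt ψ ∧ nmin ψ ≤ m,
      ∃ φ : ℂ → E4, Isotopic χ φ ∧ lowE φ < ENNReal.ofReal (Real.pi ^ 2 * (m + 1)),
      ∀ η : ℝ, 0 < η → ∃ φ : ℂ → E4, Isotopic χ φ ∧
        lowE φ ≤ ENNReal.ofReal (Real.pi ^ 2 * m + η)] := by
  have hpi : 0 < Real.pi ^ 2 := by positivity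
  tfae_have 1 → 3 := by
    rintro ⟨ψ, h1, h3, h4⟩ η hη
    obtain ⟨φ, a1, a3, -⟩ := curv_of_crit h1.right h3 hη
    refine ⟨φ, h1.trans a1, a3.trans ?_⟩
    have h5 : (nmin ψ : ℝ≥0∞) ≤ (m : ℝ≥0∞) := by exact_mod_cast h4
    rw [ENNReal.ofReal_add (by positivity) hη.le, ENNReal.ofReal_mul (by positivity),
      ENNReal.ofReal_natCast]
    gcongr
  tfae_have 3 → 2 := by
    intro h
    obtain ⟨φ, h1, h3⟩ := h 1 one_pos
    refine ⟨φ, h1, h3.trans_lt ?_⟩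
    rw [ENNReal.ofReal_lt_ofReal_iff (by positivity)]
    have := Real.pi_gt_three
    nlinarith
  tfae_have 2 → 1 := by
    rintro ⟨φ, h1, h3⟩
    obtain ⟨ψ, a1, a3, a4⟩ := crit_of_curv h1.right 1 0 0
    refine ⟨ψ, h1.trans a1, a3, ?_⟩
    simp only [ENNReal.coe_one, ENNReal.coe_zero, one_mul, zero_mul, add_zero] at a4
    exact nat_of_lt (a4.trans_lt h3)
  tfae_finish

/-- Ribbon discs with few saddles. -/
theorem tfae_fusion (χ : ℂ → E4) (s : ℕ) :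
    List.TFAE [
      ∃ ψ : ℂ → E4, Isotopic χ ψ ∧ MorseHt ψ ∧ nmin ψ = 0 ∧ nsad ψ ≤ s,
      ∃ φ : ℂ → E4, Isotopic χ φ ∧
        ((s + 1 : ℕ) : ℝ≥0∞) * lowE φ + sadE φ < ENNReal.ofReal (Real.pi ^ 2 * (s + 1)),
      ∀ η : ℝ, 0 < η → ∃ φ : ℂ → E4, Isotopic χ φ ∧ lowE φ ≤ ENNReal.ofReal η ∧
        sadE φ ≤ ENNReal.ofReal (Real.pi ^ 2 * s + η)] := by
  have hpi : 0 < Real.pi ^ 2 := by positivity
  tfae_have 1 → 3 := by
    rintro ⟨ψ, h1, h3, h4, h5⟩ η hη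
    obtain ⟨φ, a1, a3, -, a5⟩ := curv_of_crit h1.right h3 hη
    refine ⟨φ, h1.trans a1, a3.trans ?_, a5.trans ?_⟩
    · rw [h4]; simp
    · have h6 : (nsad ψ : ℝ≥0∞) ≤ (s : ℝ≥0∞) := by exact_mod_cast h5
      rw [ENNReal.ofReal_add (by positivity) hη.le, ENNReal.ofReal_mul (by positivity),
        ENNReal.ofReal_natCast]
      gcongr
  tfae_have 3 → 2 := by
    intro h
    obtain ⟨φ, h1, h3, h4⟩ := h (1 / (s + 2)) (by positivity)
    refine ⟨φ, h1, ?_⟩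
    have h5 : ((s + 1 : ℕ) : ℝ≥0∞) * lowE φ + sadE φ ≤
        ENNReal.ofReal ((s + 1) * (1 / (s + 2)) + (Real.pi ^ 2 * s + 1 / (s + 2))) := by
      rw [ENNReal.ofReal_add (by positivity) (by positivity), ENNReal.ofReal_mul (by positivity)]
      refine add_le_add ?_ h4
      have : ENNReal.ofReal ((s : ℝ) + 1) = ((s + 1 : ℕ) : ℝ≥0∞) := by
        rw [← ENNReal.ofReal_natCast]; push_cast; rfl
      rw [this]
      exact mul_le_mul_right h3 _
    refine h5.trans_lt ?_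
    rw [ENNReal.ofReal_lt_ofReal_iff (by positivity)]
    have h6 : ((s : ℝ) + 1) * (1 / (s + 2)) + (Real.pi ^ 2 * s + 1 / (s + 2)) =
        Real.pi ^ 2 * s + 1 := by field_simp; ring
    rw [h6]
    have := Real.pi_gt_three
    nlinarith
  tfae_have 2 → 1 := by
    rintro ⟨φ, h1, h3⟩
    obtain ⟨ψ, a1, a3, a4⟩ := crit_of_curv h1.right ((s + 1 : ℕ) : ℝ≥0) 0 1
    refine ⟨ψ, h1.trans a1, a3, ?_⟩
    simp only [ENNReal.coe_one, ENNReal.coe_zero, one_mul, zero_mul, add_zero,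
      ENNReal.coe_natCast] at a4
    have h5 : ((s + 1 : ℕ) : ℕ∞) * nmin ψ + nsad ψ ≤ s := by
      refine nat_of_lt (lt_of_eq_of_lt ?_ (a4.trans_lt h3))
      push_cast
      rfl
    have h6 : nmin ψ = 0 := by
      by_contra hne
      have h7 : 1 ≤ nmin ψ := Order.one_le_iff_ne_zero.2 hne
      have h8 : ((s + 1 : ℕ) : ℕ∞) ≤ s := by
        calc ((s + 1 : ℕ) : ℕ∞) = ((s + 1 : ℕ) : ℕ∞) * 1 := (mul_one _).symm
          _ ≤ ((s + 1 : ℕ) : ℕ∞) * nmin ψ := by gcongr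
          _ ≤ _ := le_self_add
          _ ≤ s := h5
      have h9 : s + 1 ≤ s := by exact_mod_cast h8
      omega
    rw [h6, mul_zero, zero_add] at h5
    exact ⟨h6, h5⟩
  tfae_finish

end Pool.Agent.U95.SD
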